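import Mathlib
import Pool.Agent.Run7.h257.Defs

/-!
Definitions for: the Fermat quotients `q_p(3) = (3^(p-1)-1)/p` are not congruent to a fixed
rational number for a positive proportion of the primes (port of `Run7.h257` / `Run7.h361` from
base `2` to base `3`, with `D H_k + N` in place of `H_k`).
-/

namespace Run7.h510.B3

noncomputable section

open PowerSeries Run7.h257

/-- the two integers `D > 0` and `N` of the numerators `D H_k + N`. -/
class Par where
  D : ℕ
  N : ℤ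
  hD : 0 < D

variable [P : Par]

/-- `D H_k + N`. -/
def hk (k : ℕ) : ℚ := P.D * harmonic k + P.N

/-- `p` is good: `p` divides `D H_k + N` for all `k < p` with `p ∣ 3 k + 1`. -/
def Good (p : ℕ) : Prop := ∀ k : ℕ, k < p → p ∣ 3 * k + 1 → padicNorm p (hk k) ≤ (p : ℚ)⁻¹

/-- `g_k = (D H_k + N) / (3k+1)`. -/
def gk (k : ℕ) : ℚ := hk k / (3 * k + 1)

/-- Coefficients (in `v`) of `G = ∑ g_k u^k`, `u = v/(1+v)`. -/
def gam : ℕ → ℚ
  | 0 => P.N
  | (m + 1) => ∑ k ∈ Finset.range (m + 1), (-1) ^ (m - k) * (m.choose k) * gk (k + 1)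

/-- The three power series `1, log(1+X), G`. -/
def fs (i : ℕ) : ℚ⟦X⟧ := if i = 0 then 1 else if i = 1 then PowerSeries.mk lc else PowerSeries.mk gam

/-- the `r`-th row, `(1+X)^j f_i`. -/
def row (M r : ℕ) : ℚ⟦X⟧ := (1 + X) ^ (dg M r) * fs (ty M r)

/-- the matrix with rows `row M r` and columns the coefficients of index `n t`. -/
def mat (M : ℕ) (n : Fin (30 * M) → ℕ) : Matrix (Fin (30 * M)) (Fin (30 * M)) ℚ :=
  Matrix.of fun r t => PowerSeries.coeff (n t) (row M r)

/-- the extra pole of the `G`-coefficients at `p`. -/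
def dd (P₀ p n : ℕ) : ℕ := if p ≤ P₀ ∨ 4 * p ≤ 3 * n + 1 then Nat.log p (3 * n + 1) else 0

/-- `3`-adic side: `G = (D B) * ℓ + R` with `B = ∑ bet k X^k`, `R = ∑ rr k X^k`. -/
def bet : ℕ → ℚ
  | 0 => 1
  | 1 => 1 / 4
  | (k + 2) => -3 * (k + 1) * bet (k + 1) / (3 * k + 7)

/-- `D B`. -/
def bd (k : ℕ) : ℚ := P.D * bet k

def rr (k : ℕ) : ℚ := if k = 0 then P.N else bet k * (P.D * (harmonic (k - 1) - 3) + P.N)

/-- loss in the `3`-adic valuations of `bet` and `rr`. -/
def cc (k : ℕ) : ℕ := 2 * Nat.log 3 (k + 1) + 4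

end

end Run7.h510.B3
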