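import Mathlib
import Pool.Agent.Run7.h257.Cauchy
import Pool.Agent.Run7.h510.B3.Gan

namespace Run7.h510.B3

noncomputable section

open PowerSeries Filter Topology Metric
open Run7.h257 (Rep rep_div rep_mul lc dg ty)

variable [P : Par]

theorem rep_fs (i : ℕ) : Rep (fun k => ((coeff k (fs i) : ℚ) : ℂ))
    (fun v => if i = 0 then 1 else if i = 1 then Complex.log (1 + v) else Gan v) := by
  have hev : ∀ᶠ v in 𝓝 (0 : ℂ), ‖v‖ < 1 := by
    have : ContinuousAt (fun v : ℂ => ‖v‖) 0 := continuous_norm.continuousAt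
    exact this.eventually_lt_const (by simp)
  filter_upwards [hev] with v hv
  by_cases h0 : i = 0
  · simp only [h0, if_true, fs]
    have := hasSum_single (f := fun k => ((coeff k (1 : ℚ⟦X⟧) : ℚ) : ℂ) * v ^ k) 0 (by
      intro k hk
      simp [coeff_one, hk])
    simpa using this
  · by_cases h1 : i = 1
    · simp only [h1, if_true, fs, one_ne_zero, if_false, coeff_mk]
      refine (Complex.hasSum_taylorSeries_log hv).congr_fun ?_
      intro k
      simp only [lc]
      push_cast
      ring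
    · simp only [h0, h1, if_false, fs, coeff_mk]
      exact (gan_summable hv).hasSum

/-- combination of power series vanishing to order `n`. -/
theorem comb_near (M : ℕ) (c : Fin (30 * M) → ℝ) (n : ℕ)
    (hc : ∀ k < n, ∑ r, c r * ((PowerSeries.coeff k (row M r) : ℚ) : ℝ) = 0) :
    ∃ F : ℂ → ℂ, ContinuousAt F 0 ∧
      F 0 = ((∑ r, c r * ((PowerSeries.coeff n (row M r) : ℚ) : ℝ) : ℝ) : ℂ) ∧
      ∀ᶠ v in 𝓝 (0 : ℂ), ∑ r, (c r : ℂ) * ((1 + v) ^ (dg M r) *
        (if ty M r = 0 then 1 else if ty M r = 1 then Complex.log (1 + v) else Gan v)) =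
          v ^ n * F v := by
  have hrep : Rep (fun k => ((∑ r, c r * ((PowerSeries.coeff k (row M r) : ℚ) : ℝ) : ℝ) : ℂ))
      (fun v => ∑ r : Fin (30 * M), (c r : ℂ) * ((1 + v) ^ (dg M r) *
        (if ty M r = 0 then 1 else if ty M r = 1 then Complex.log (1 + v) else Gan v))) := by
    have h1 : ∀ r : Fin (30 * M), ∀ᶠ v in 𝓝 (0 : ℂ),
        HasSum (fun k => ((coeff k (row M r) : ℚ) : ℂ) * v ^ k) ((1 + v) ^ (dg M r) *
        (if ty M r = 0 then 1 else if ty M r = 1 then Complex.log (1 + v) else Gan v)) :=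
      fun r => rep_mul (rep_fs (ty M r)) (dg M r)
    have h2 := Filter.eventually_all.2 h1
    filter_upwards [h2] with v hv
    have h3 := hasSum_sum (s := Finset.univ)
      (fun (r : Fin (30 * M)) _ => (hv r).mul_left (c r : ℂ))
    refine h3.congr_fun ?_
    intro k
    push_cast
    rw [Finset.sum_mul]
    exact Finset.sum_congr rfl (fun r _ => by ring)
  obtain ⟨F, hF1, hF2, hF3⟩ := rep_div hrep n (fun k hk => by rw [hc k hk]; simp)
  exact ⟨F, hF1, hF2, hF3⟩

end

end Run7.h510.B3
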