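import Mathlib

namespace Run7.h510.B3

noncomputable section

open Filter Topology Metric

/-- a holomorphic nonvanishing function on the unit disc has a holomorphic cube root. -/
lemma exists_cbrt (S : ℂ → ℂ) (hS : DifferentiableOn ℂ S (ball 0 1))
    (hne : ∀ s ∈ ball (0 : ℂ) 1, S s ≠ 0) :
    ∃ T : ℂ → ℂ, DifferentiableOn ℂ T (ball 0 1) ∧ (∀ s, T s ≠ 0) ∧
      ∀ s ∈ ball (0 : ℂ) 1, S s = T s ^ 3 := by
  have hd : DifferentiableOn ℂ (fun s => deriv S s / S s) (ball 0 1) :=
    (hS.deriv isOpen_ball).div hS hne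
  obtain ⟨g, hg0, hg⟩ := (hd.isExactOn_ball).with_val_at 0 (Complex.log (S 0))
  have h0 : (0 : ℂ) ∈ ball (0 : ℂ) 1 := mem_ball_self one_pos
  have hSd : ∀ s ∈ ball (0 : ℂ) 1, HasDerivAt S (deriv S s) s := fun s hs =>
    (hS.differentiableAt (isOpen_ball.mem_nhds hs)).hasDerivAt
  have hconst : ∀ s ∈ ball (0 : ℂ) 1, S s * Complex.exp (-g s) = 1 := by
    have hq : ∀ s ∈ ball (0 : ℂ) 1, HasDerivAt (fun s => S s * Complex.exp (-g s)) 0 s := by
      intro s hs
      have h1 := (hSd s hs).mul ((hg s hs).neg.cexp)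
      refine h1.congr_deriv ?_
      have := hne s hs
      field_simp
      ring
    have hc : ∀ s ∈ ball (0 : ℂ) 1, S s * Complex.exp (-g s) = S 0 * Complex.exp (-g 0) := by
      intro s hs
      have hdiff : DifferentiableOn ℂ (fun s => S s * Complex.exp (-g s)) (ball 0 1) := fun s hs =>
        (hq s hs).differentiableAt.differentiableWithinAt
      have hz : ∀ z ∈ ball (0 : ℂ) 1, fderivWithin ℂ (fun s => S s * Complex.exp (-g s))
          (ball 0 1) z = 0 := by
        intro z hz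
        rw [fderivWithin_of_isOpen isOpen_ball hz]
        have := (hq z hz).hasFDerivAt.fderiv
        rw [this]
        ext
        simp
      exact (convex_ball (0 : ℂ) 1).is_const_of_fderivWithin_eq_zero hdiff hz hs h0
    intro s hs
    rw [hc s hs, hg0, Complex.exp_neg, Complex.exp_log (hne 0 h0), mul_inv_cancel₀ (hne 0 h0)]
  refine ⟨fun s => Complex.exp (g s / 3), ?_, fun s => Complex.exp_ne_zero _, ?_⟩
  · intro s hs
    exact ((hg s hs).differentiableAt.div_const 3).cexp.differentiableWithinAt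
  · intro s hs
    have h1 := hconst s hs
    rw [Complex.exp_neg] at h1
    have h2 : Complex.exp (g s / 3) ^ 3 = Complex.exp (g s) := by
      rw [← Complex.exp_nat_mul]
      congr 1
      push_cast
      ring
    rw [h2]
    field_simp at h1
    exact h1

/-- solution of `Γ₁ + 3 s Γ₁' = M`. -/
lemma exists_third (M : ℂ → ℂ) (hM : DifferentiableOn ℂ M (ball 0 1)) :
    ∃ G : ℂ → ℂ, DifferentiableOn ℂ G (ball 0 1) ∧
      ∀ s ∈ ball (0 : ℂ) 1, G s + 3 * s * deriv G s = M s := by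
  obtain ⟨w, hsum⟩ : ∃ w : ℕ → ℂ, ∀ z ∈ ball (0 : ℂ) 1,
      HasSum (fun n => w n * z ^ n) (M z) := by
    refine ⟨fun n => ((n.factorial : ℂ)⁻¹) * iteratedDeriv n M 0, ?_⟩
    intro z hz
    have := Complex.hasSum_taylorSeries_on_ball hM hz
    simp only [sub_zero, smul_eq_mul] at this
    have hfun : (fun n : ℕ => (n.factorial : ℂ)⁻¹ * iteratedDeriv n M 0 * z ^ n) =
        (fun n : ℕ => (n.factorial : ℂ)⁻¹ * (z ^ n * iteratedDeriv n M 0)) := by
      funext n
      ring
    rw [hfun]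
    exact this
  set G : ℂ → ℂ := fun z => ∑' n, w n / (3 * n + 1) * z ^ n with hG
  have hder : ∀ z ∈ ball (0 : ℂ) 1, HasDerivAt G (∑' n, w n / (3 * n + 1) * (n * z ^ (n - 1))) z ∧
      Summable (fun n => w n / (3 * n + 1) * z ^ n) ∧
      Summable (fun n => w n / (3 * n + 1) * (n * z ^ (n - 1))) := by
    intro z hz
    rw [mem_ball_zero_iff] at hz
    obtain ⟨ρ, hρ1, hρ2⟩ := exists_between hz
    have hρ0 : 0 < ρ := lt_of_le_of_lt (norm_nonneg _) hρ1
    have hρb : ((ρ : ℝ) : ℂ) ∈ ball (0 : ℂ) 1 := by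
      rw [mem_ball_zero_iff, Complex.norm_real, Real.norm_of_nonneg hρ0.le]
      exact hρ2
    have hS : Summable (fun n => ‖w n‖ * ρ ^ n) := by
      have := (hsum _ hρb).summable.norm
      refine this.congr ?_
      intro n
      rw [norm_mul, norm_pow, Complex.norm_real, Real.norm_of_nonneg hρ0.le]
    have hden : ∀ n : ℕ, ‖(3 * (n : ℂ) + 1)‖ = 3 * n + 1 := by
      intro n
      have : (3 * (n : ℂ) + 1) = ((3 * n + 1 : ℕ) : ℂ) := by push_cast; ring
      rw [this, Complex.norm_natCast]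
      push_cast
      ring
    have hterm : ∀ n : ℕ, ∀ y : ℂ, ‖y‖ ≤ ρ → ‖w n / (3 * n + 1) * y ^ n‖ ≤ ‖w n‖ * ρ ^ n := by
      intro n y hy
      rw [norm_mul, norm_div, norm_pow, hden]
      have h1 : ‖w n‖ / (3 * n + 1) ≤ ‖w n‖ := by
        apply div_le_self (norm_nonneg _)
        have : (0 : ℝ) ≤ n := Nat.cast_nonneg _
        linarith
      gcongr
    have hterm2 : ∀ n : ℕ, ∀ y : ℂ, ‖y‖ ≤ ρ →
        ‖w n / (3 * n + 1) * (n * y ^ (n - 1))‖ ≤ ‖w n‖ * ρ ^ n / ρ := by
      intro n y hy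
      rcases n with _ | n
      · simp
        positivity
      · rw [norm_mul, norm_div, hden, norm_mul, Complex.norm_natCast, norm_pow]
        simp only [Nat.add_sub_cancel]
        have h1 : ‖w (n + 1)‖ / (3 * ((n + 1 : ℕ) : ℝ) + 1) * (((n + 1 : ℕ) : ℝ) * ‖y‖ ^ n) =
            ‖w (n + 1)‖ * (((n + 1 : ℕ) : ℝ) / (3 * ((n + 1 : ℕ) : ℝ) + 1)) * ‖y‖ ^ n := by ring
        rw [h1]
        have h2 : ((n + 1 : ℕ) : ℝ) / (3 * ((n + 1 : ℕ) : ℝ) + 1) ≤ 1 := by
          rw [div_le_one (by positivity)]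
          have : (0 : ℝ) ≤ ((n + 1 : ℕ) : ℝ) := Nat.cast_nonneg _
          linarith
        calc ‖w (n + 1)‖ * (((n + 1 : ℕ) : ℝ) / (3 * ((n + 1 : ℕ) : ℝ) + 1)) * ‖y‖ ^ n
            ≤ ‖w (n + 1)‖ * 1 * ρ ^ n := by gcongr
          _ = ‖w (n + 1)‖ * ρ ^ (n + 1) / ρ := by
            rw [pow_succ]
            field_simp
    refine ⟨?_, ?_, ?_⟩
    · apply hasDerivAt_tsum_of_isPreconnected (t := ball (0 : ℂ) ρ) (y₀ := 0)
        (g := fun n z => w n / (3 * n + 1) * z ^ n)
        (g' := fun n z => w n / (3 * n + 1) * (n * z ^ (n - 1)))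
        (u := fun n => ‖w n‖ * ρ ^ n / ρ) (hS.div_const ρ) isOpen_ball
        (convex_ball (0 : ℂ) ρ).isPreconnected
      · intro n y _
        exact (hasDerivAt_pow n y).const_mul _
      · intro n y hy
        rw [mem_ball_zero_iff] at hy
        exact hterm2 n y hy.le
      · exact mem_ball_self hρ0
      · exact Summable.of_norm_bounded hS (fun n => hterm n 0 (by simpa using hρ0.le))
      · rwa [mem_ball_zero_iff]
    · exact Summable.of_norm_bounded hS (fun n => hterm n z hρ1.le)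
    · exact Summable.of_norm_bounded (hS.div_const ρ) (fun n => hterm2 n z hρ1.le)
  refine ⟨G, fun s hs => (hder s hs).1.differentiableAt.differentiableWithinAt, ?_⟩
  intro s hs
  obtain ⟨h1, h2, h3⟩ := hder s hs
  rw [h1.deriv, hG]
  simp only
  rw [← tsum_mul_left, ← (h2.tsum_add (h3.mul_left _)), ← (hsum s hs).tsum_eq]
  congr 1
  funext n
  have : (3 * (n : ℂ) + 1) ≠ 0 := by
    have : (3 * (n : ℂ) + 1) = ((3 * n + 1 : ℕ) : ℂ) := by push_cast; ring
    rw [this]
    exact Nat.cast_ne_zero.mpr (Nat.succ_ne_zero (3 * n))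
  rcases n with _ | n
  · simp
  · simp only [Nat.add_sub_cancel]
    field_simp
    ring

theorem exists_Gam (h : ℂ → ℂ) (a b : ℂ) (hd : DifferentiableOn ℂ h (ball 0 1)) (h0 : h 0 = 0)
    (h1 : deriv h 0 ≠ 0) (h2 : ∀ s ∈ ball (0 : ℂ) 1, Complex.exp (h s) = 1 → s = 0) :
    ∃ Γ : ℂ → ℂ, DifferentiableOn ℂ Γ (ball 0 1) ∧ ∀ s ∈ ball (0 : ℂ) 1,
      deriv h s * Complex.exp (-h s) * Γ s + 3 * (1 - Complex.exp (-h s)) * deriv Γ s =
        (a * h s + b) * deriv h s := by
  have hb0 : (0 : ℂ) ∈ ball (0 : ℂ) 1 := mem_ball_self one_pos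
  have hD : ∀ s ∈ ball (0 : ℂ) 1, HasDerivAt h (deriv h s) s := fun s hs =>
    (hd.differentiableAt (isOpen_ball.mem_nhds hs)).hasDerivAt
  set u : ℂ → ℂ := fun s => 1 - Complex.exp (-h s) with hu
  have hu0 : u 0 = 0 := by simp [hu, h0]
  have hud : ∀ s ∈ ball (0 : ℂ) 1, HasDerivAt u (deriv h s * Complex.exp (-h s)) s := by
    intro s hs
    have := ((hD s hs).neg.cexp).const_sub 1
    refine this.congr_deriv ?_
    simp only [Pi.neg_apply]
    ring
  have hudiff : DifferentiableOn ℂ u (ball 0 1) := fun s hs =>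
    (hud s hs).differentiableAt.differentiableWithinAt
  set S : ℂ → ℂ := dslope u 0 with hSdef
  have hSd : DifferentiableOn ℂ S (ball 0 1) :=
    (Complex.differentiableOn_dslope (isOpen_ball.mem_nhds hb0)).mpr hudiff
  have hSu : ∀ s, u s = s * S s := by
    intro s
    have := sub_smul_dslope u 0 s
    rw [hu0] at this
    simpa using this.symm
  have hSne : ∀ s ∈ ball (0 : ℂ) 1, S s ≠ 0 := by
    intro s hs hS0
    by_cases hs0 : s = 0
    · subst hs0
      rw [hSdef, dslope_same, (hud 0 hb0).deriv, h0] at hS0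
      simp at hS0
      exact h1 hS0
    · have : u s = 0 := by rw [hSu, hS0, mul_zero]
      have h3 : Complex.exp (-h s) = 1 := by
        have : 1 - Complex.exp (-h s) = 0 := this
        linear_combination -this
      apply hs0
      apply h2 s hs
      rw [Complex.exp_neg] at h3
      exact inv_eq_one.mp h3
  obtain ⟨T, hTd, hTne, hT⟩ := exists_cbrt S hSd hSne
  have hMd : DifferentiableOn ℂ (fun s => (a * h s + b) * deriv h s / T s ^ 2) (ball 0 1) :=
    (((hd.const_mul a).add_const b).mul (hd.deriv isOpen_ball)).div (hTd.pow 2)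
      (fun s _ => pow_ne_zero 2 (hTne s))
  obtain ⟨G, hGd, hG⟩ := exists_third _ hMd
  refine ⟨fun s => G s / T s, hGd.div hTd (fun s _ => hTne s), ?_⟩
  intro s hs
  have hTs : HasDerivAt T (deriv T s) s := (hTd.differentiableAt (isOpen_ball.mem_nhds hs)).hasDerivAt
  have hGs : HasDerivAt G (deriv G s) s := (hGd.differentiableAt (isOpen_ball.mem_nhds hs)).hasDerivAt
  have hΓ : deriv (fun s => G s / T s) s = (deriv G s * T s - G s * deriv T s) / T s ^ 2 :=
    (hGs.div hTs (hTne s)).deriv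
  have hu' : deriv h s * Complex.exp (-h s) = T s ^ 3 + s * (3 * T s ^ 2 * deriv T s) := by
    have e1 : HasDerivAt (fun s => s * T s ^ 3) (T s ^ 3 + s * (3 * T s ^ 2 * deriv T s)) s := by
      have := (hasDerivAt_id s).mul (hTs.pow 3)
      refine this.congr_deriv ?_
      simp
    have e2 : u =ᶠ[𝓝 s] (fun s => s * T s ^ 3) := by
      filter_upwards [isOpen_ball.mem_nhds hs] with z hz
      rw [hSu, hT z hz]
    have e3 := e1.congr_of_eventuallyEq e2
    exact (hud s hs).unique e3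
  have hus : 1 - Complex.exp (-h s) = s * T s ^ 3 := by
    have : u s = s * T s ^ 3 := by rw [hSu, hT s hs]
    exact this
  have hne := hTne s
  have hGs2 := hG s hs
  rw [eq_div_iff (pow_ne_zero 2 hne)] at hGs2
  rw [hΓ, hu', hus]
  simp only
  rw [← hGs2]
  field_simp
  ring

end

end Run7.h510.B3
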