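import Mathlib
import Pool.Agent.Run7.h257.Pnt
import Pool.Agent.Run7.h510.B3.Defs

namespace Run7.h510.B3

noncomputable section

open Filter Topology
open Run7.h257 (primesLE_eq upper_of_tendsto)

theorem dd_bound (P₀ : ℕ) (ε : ℝ) (hε : 0 < ε) : ∃ C : ℝ, ∀ n : ℕ,
    ∑ p ∈ (Finset.range (3 * n + 2)).filter Nat.Prime, (dd P₀ p n : ℝ) * Real.log p ≤
      (3 / 4 + ε) * n + C := by
  obtain ⟨C1, hC10, hC1⟩ := upper_of_tendsto Chebyshev.theta_mono Chebyshev.theta_nonneg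
    Pool.Agent.Cov.PNT.theta_div_tendsto (ε / 4) (by positivity)
  obtain ⟨C2, hC2⟩ := Chebyshev.psi_sub_theta_le_mul_sqrt
  -- C2 sqrt N <= ε/8 * N + C3
  have hsq : ∀ x : ℝ, 0 ≤ x → C2 * Real.sqrt x ≤ ε / 8 * x + 2 * C2 ^ 2 / ε := by
    intro x hx
    have h1 := Real.sq_sqrt hx
    have h2 : 0 ≤ (Real.sqrt x - 4 * C2 / ε) ^ 2 := sq_nonneg _
    have h3 : C2 * Real.sqrt x = ε / 8 * (Real.sqrt x ^ 2 + (4 * C2 / ε) ^ 2 -
        (Real.sqrt x - 4 * C2 / ε) ^ 2) := by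
      field_simp
      ring
    have h4 : ε / 8 * (4 * C2 / ε) ^ 2 = 2 * C2 ^ 2 / ε := by
      field_simp
      ring
    rw [h3, h1]
    nlinarith
  -- P₀ log N <= ε / 8 N + C
  have hlg : ∃ C4 : ℝ, ∀ x : ℝ, 0 < x → (P₀ : ℝ) * Real.log x ≤ ε / 8 * x + C4 := by
    set κ : ℝ := ε / (8 * (P₀ + 1)) with hκ
    have hκ0 : 0 < κ := by positivity
    refine ⟨(P₀ : ℝ) * |Real.log κ|, ?_⟩
    intro x hx
    have h3 : Real.log (κ * x) ≤ κ * x - 1 := Real.log_le_sub_one_of_pos (by positivity)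
    rw [Real.log_mul hκ0.ne' hx.ne'] at h3
    have h4 := neg_abs_le (Real.log κ)
    have h5 : Real.log x ≤ κ * x + |Real.log κ| := by linarith
    have h6 : (P₀ : ℝ) * κ ≤ ε / 8 := by
      rw [hκ]
      rw [mul_div_assoc', div_le_div_iff₀ (by positivity) (by norm_num)]
      nlinarith
    calc (P₀ : ℝ) * Real.log x ≤ P₀ * (κ * x + |Real.log κ|) := by gcongr
      _ = (P₀ * κ) * x + P₀ * |Real.log κ| := by ring
      _ ≤ ε / 8 * x + P₀ * |Real.log κ| := by gcongr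
  obtain ⟨C4, hC4⟩ := hlg
  refine ⟨1 + 2 * ε + C1 + 2 * C2 ^ 2 / ε + C4, ?_⟩
  intro n
  set N : ℕ := 3 * n + 1 with hN
  have hNr : (N : ℝ) = 3 * n + 1 := by rw [hN]; push_cast; ring
  have hNpos : (0 : ℝ) < N := by rw [hNr]; positivity
  have hset : (Finset.range (3 * n + 2)).filter Nat.Prime = Nat.primesLE N := by
    rw [primesLE_eq]
  rw [hset]
  -- pointwise
  have hpt : ∀ p ∈ Nat.primesLE N, (dd P₀ p n : ℝ) * Real.log p ≤
      (if p ≤ P₀ then Real.log N else 0) +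
      ((Nat.log p N : ℝ) * Real.log p - Real.log p + (if 4 * p ≤ N then Real.log p else 0)) := by
    intro p hp
    rw [Nat.mem_primesLE] at hp
    obtain ⟨hpN, hpp⟩ := hp
    have hlogp : 0 ≤ Real.log p := Real.log_nonneg (by exact_mod_cast hpp.one_lt.le)
    have h1 : 1 ≤ Nat.log p N := Nat.log_pos hpp.one_lt hpN
    have h1' : (1 : ℝ) ≤ Nat.log p N := by exact_mod_cast h1
    have hlN : (Nat.log p N : ℝ) * Real.log p ≤ Real.log N := by
      rw [← Real.log_pow]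
      apply Real.log_le_log
      · have : (0 : ℝ) < p := by exact_mod_cast hpp.pos
        positivity
      · exact_mod_cast Nat.pow_log_le_self p (by omega)
    have hlN0 : 0 ≤ Real.log N := le_trans (by positivity) hlN
    unfold dd
    by_cases h3 : 4 * p ≤ N
    · rw [if_pos (Or.inr h3), if_pos h3]
      split_ifs <;> nlinarith
    · rw [if_neg h3]
      by_cases h4 : p ≤ P₀
      · rw [if_pos (Or.inl h4), if_pos h4]
        nlinarith
      · rw [if_neg (by push Not; exact ⟨by omega, by omega⟩), if_neg h4]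
        push_cast
        nlinarith
  refine (Finset.sum_le_sum hpt).trans ?_
  rw [Finset.sum_add_distrib, Finset.sum_add_distrib, Finset.sum_sub_distrib,
    ← Chebyshev.psi_eq_sum_mul_log_prime, ← Chebyshev.theta_eq_sum_primesLE_log]
  have hA : ∑ p ∈ Nat.primesLE N, (if p ≤ P₀ then Real.log N else 0) ≤ P₀ * Real.log N := by
    rw [← Finset.sum_filter, Finset.sum_const, nsmul_eq_mul]
    apply mul_le_mul_of_nonneg_right _ (Real.log_nonneg (by rw [hNr]; linarith [Nat.cast_nonneg (α := ℝ) n]))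
    have : ((Nat.primesLE N).filter (· ≤ P₀)) ⊆ Finset.Icc 1 P₀ := by
      intro p hp
      rw [Finset.mem_filter, Nat.mem_primesLE] at hp
      rw [Finset.mem_Icc]
      exact ⟨hp.1.2.one_lt.le, hp.2⟩
    have h7 := Finset.card_le_card this
    rw [Nat.card_Icc] at h7
    exact_mod_cast (by omega : ((Nat.primesLE N).filter (· ≤ P₀)).card ≤ P₀)
  have hB : ∑ p ∈ Nat.primesLE N, (if 4 * p ≤ N then Real.log p else 0) =
      Chebyshev.theta ((N / 4 : ℕ) : ℝ) := by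
    rw [Chebyshev.theta_eq_sum_primesLE_log, ← Finset.sum_filter]
    apply Finset.sum_congr _ (fun _ _ => rfl)
    ext p
    rw [Finset.mem_filter, Nat.mem_primesLE, Nat.mem_primesLE]
    constructor
    · rintro ⟨⟨_, h2⟩, h3⟩
      exact ⟨by omega, h2⟩
    · rintro ⟨h1, h2⟩
      exact ⟨⟨by omega, h2⟩, by omega⟩
  rw [hB]
  have hC := hC1 ((N / 4 : ℕ) : ℝ) (Nat.cast_nonneg _)
  have hdiv : ((N / 4 : ℕ) : ℝ) ≤ N / 4 := Nat.cast_div_le
  have hD := hC2 (N : ℝ)
  have hE := hsq N hNpos.le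
  have hF := hC4 N hNpos
  have hG : (1 + ε / 4) * ((N / 4 : ℕ) : ℝ) ≤ (1 + ε / 4) * (N / 4) := by gcongr
  rw [hNr] at *
  have hn : (0 : ℝ) ≤ n := Nat.cast_nonneg n
  nlinarith

end

end Run7.h510.B3
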