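import Mathlib
import Pool.Agent.Run7.h257.TwoDetCore
import Pool.Agent.Run7.h510.B3.Defs

/-!
The `3`-adic bound for the determinant, core.
-/

set_option autoImplicit false

namespace Run7.h510.B3.ThreeCore

noncomputable section

open PowerSeries Run7.h257

open Run7.h257.TwoDetCore (det_expand Ee coeff_one_add ty_zero ty_one ty_two dg_zero dg_one dg_two
  sum_desc sum_pos sum_small)

variable [P : Par]

omit P in
theorem norm_two_nonneg (q : ℚ) : 0 ≤ padicNorm 3 q := padicNorm.nonneg q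

omit P in
theorem norm_prod_le {ι : Type} (s : Finset ι) (f : ι → ℚ) (z : ι → ℤ)
    (h : ∀ i ∈ s, padicNorm 3 (f i) ≤ (3 : ℚ) ^ (z i)) :
    padicNorm 3 (∏ i ∈ s, f i) ≤ (3 : ℚ) ^ (∑ i ∈ s, z i) := by
  classical
  induction s using Finset.induction_on with
  | empty => simp
  | insert a s ha ih =>
    rw [Finset.prod_insert ha, Finset.sum_insert ha, padicNorm.mul,
      zpow_add₀ (by norm_num : (3 : ℚ) ≠ 0)]
    refine mul_le_mul (h a (Finset.mem_insert_self _ _))
      (ih fun i hi => h i (Finset.mem_insert_of_mem hi)) (norm_two_nonneg _) (by positivity)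

omit P in
theorem norm_det_le {N : ℕ} (A : Matrix (Fin N) (Fin N) ℚ) (z : Fin N → ℤ)
    (h : ∀ r t, padicNorm 3 (A r t) ≤ (3 : ℚ) ^ (z t)) :
    padicNorm 3 A.det ≤ (3 : ℚ) ^ (∑ t, z t) := by
  classical
  rw [Matrix.det_apply]
  refine padicNorm.sum_le' (fun σ _ => ?_) (by positivity)
  have h1 : padicNorm 3 (Equiv.Perm.sign σ • ∏ i, A (σ i) i) = padicNorm 3 (∏ i, A (σ i) i) := by
    rcases Int.units_eq_one_or (Equiv.Perm.sign σ) with h2 | h2
    · rw [h2, one_smul]
    · rw [h2]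
      simp
  rw [h1]
  exact norm_prod_le _ _ _ fun i _ => h _ _

/-- the coefficient series of row `r` at `ℓ` (`true`) and `1` (`false`) -/
def Tser (M r : ℕ) (b : Bool) : ℚ⟦X⟧ :=
  if ty M r = 0 then (if b then 0 else (1 + X) ^ (dg M r))
  else if ty M r = 1 then (if b then (1 + X) ^ (dg M r) else 0)
  else (1 + X) ^ (dg M r) * (if b then PowerSeries.mk bd else PowerSeries.mk rr)

theorem row_eq (hG : (PowerSeries.mk gam : ℚ⟦X⟧) =
    PowerSeries.mk bd * PowerSeries.mk lc + PowerSeries.mk rr) (M r : ℕ) :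
    row M r = Tser M r true * PowerSeries.mk lc + Tser M r false := by
  have hty : ty M r = 0 ∨ ty M r = 1 ∨ ty M r = 2 := by
    unfold ty
    split_ifs <;> simp
  unfold row Tser fs
  rcases hty with h | h | h
  · simp [h]
  · simp [h]
  · simp only [h]
    norm_num
    rw [hG]
    ring

theorem coeff_row (hG : (PowerSeries.mk gam : ℚ⟦X⟧) =
    PowerSeries.mk bd * PowerSeries.mk lc + PowerSeries.mk rr) (M r t L : ℕ) (ht : t < L) :
    coeff t (row M r) = ∑ κ : Bool × Fin L, coeff (κ.2 : ℕ) (Tser M r κ.1) * Ee (κ.1, κ.2) t := by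
  rw [row_eq hG, map_add, PowerSeries.coeff_mul, Fintype.sum_prod_type, Fintype.sum_bool]
  congr 1
  · -- the part with the logarithm
    rw [Finset.Nat.sum_antidiagonal_eq_sum_range_succ
      (fun a b => coeff a (Tser M r true) * coeff b (PowerSeries.mk lc)) t]
    have h1 : ∑ x : Fin L, coeff ((true, x).2 : ℕ) (Tser M r true) * Ee (true, (x : ℕ)) t =
        ∑ x ∈ Finset.range L, coeff x (Tser M r true) * Ee (true, x) t :=
      (Finset.sum_range (fun x => coeff x (Tser M r true) * Ee (true, x) t)).symm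
    refine Eq.trans ?_ h1.symm
    have h2 : Finset.range (t + 1) ⊆ Finset.range L := by
      intro x hx
      rw [Finset.mem_range] at hx ⊢
      omega
    rw [← Finset.sum_subset h2]
    · refine Finset.sum_congr rfl fun x hx => ?_
      rw [Finset.mem_range] at hx
      rw [coeff_mk, Ee]
      simp [Nat.lt_succ_iff.1 hx]
    · intro x _ hx
      rw [Finset.mem_range] at hx
      rw [Ee]
      simp only [if_true]
      rw [if_neg (by omega), mul_zero]
  · have h1 : ∑ x : Fin L, coeff ((false, x).2 : ℕ) (Tser M r false) * Ee (false, (x : ℕ)) t =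
        ∑ x ∈ Finset.range L, coeff x (Tser M r false) * Ee (false, x) t :=
      (Finset.sum_range (fun x => coeff x (Tser M r false) * Ee (false, x) t)).symm
    refine Eq.trans ?_ h1.symm
    rw [Finset.sum_eq_single t]
    · simp [Ee]
    · intro x _ hx
      simp [Ee, hx]
    · intro h
      exact absurd (Finset.mem_range.2 ht) h

omit P in
theorem norm_Ee (hl : ∀ n : ℕ, padicNorm 3 (lc n) ≤ (3 : ℚ) ^ Nat.log 3 n) (κ : Bool × ℕ)
    (t : ℕ) : padicNorm 3 (Ee κ t) ≤ (3 : ℚ) ^ ((Nat.log 3 t : ℕ) : ℤ) := by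
  have h0 : (1 : ℚ) ≤ (3 : ℚ) ^ ((Nat.log 3 t : ℕ) : ℤ) := by
    rw [zpow_natCast]
    exact one_le_pow₀ (by norm_num)
  unfold Ee
  split_ifs with h1 h2 h3
  · refine (hl _).trans ?_
    rw [zpow_natCast]
    exact pow_le_pow_right₀ (by norm_num) (Nat.log_mono_right (Nat.sub_le _ _))
  · rw [padicNorm.zero]
    exact zero_le_one.trans h0
  · rw [padicNorm.one]
    exact h0
  · rw [padicNorm.zero]
    exact zero_le_one.trans h0

omit P in
theorem norm_choose (j m : ℕ) : padicNorm 3 ((j.choose m : ℕ) : ℚ) ≤ 1 := by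
  exact_mod_cast padicNorm.of_int (p := 3) (j.choose m : ℤ)

theorem norm_coeff_mul (f : ℕ → ℚ)
    (hf : ∀ k : ℕ, padicNorm 3 (f k) ≤ (3 : ℚ) ^ (-((3 * k / 2 : ℕ) : ℤ) + cc k)) (j m : ℕ) :
    padicNorm 3 (coeff m ((1 + X : ℚ⟦X⟧) ^ j * PowerSeries.mk f)) ≤
      (3 : ℚ) ^ (-((3 * m / 2 : ℕ) : ℤ) + ((3 * j / 2 : ℕ) : ℤ) + 1 + cc m) := by
  rw [PowerSeries.coeff_mul]
  refine padicNorm.sum_le' (fun ab hab => ?_) (by positivity)
  replace hab := Finset.HasAntidiagonal.mem_antidiagonal.1 hab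
  rw [coeff_one_add, coeff_mk, padicNorm.mul]
  by_cases h : j < ab.1
  · rw [Nat.choose_eq_zero_of_lt h]
    simp only [Nat.cast_zero, padicNorm.zero, zero_mul]
    positivity
  · have h1 : padicNorm 3 (((j.choose ab.1 : ℕ) : ℚ)) * padicNorm 3 (f ab.2) ≤
        1 * (3 : ℚ) ^ (-((3 * ab.2 / 2 : ℕ) : ℤ) + cc ab.2) :=
      mul_le_mul (norm_choose _ _) (hf _) (norm_two_nonneg _) zero_le_one
    refine h1.trans ?_
    rw [one_mul]
    apply zpow_le_zpow_right₀ (by norm_num)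
    have h2 : cc ab.2 ≤ cc m := by
      unfold cc
      have := Nat.log_mono_right (b := 3) (show ab.2 + 1 ≤ m + 1 by omega)
      omega
    push Not at h
    generalize cc ab.2 = c1 at h2 ⊢
    generalize cc m = c2 at h2 ⊢
    omega

theorem pos_zero {M r m : ℕ} {b : Bool} (h : r < 12 * M) (hT : coeff m (Tser M r b) ≠ 0) :
    b = false ∧ m ≤ r := by
  unfold Tser at hT
  rw [ty_zero h, dg_zero h] at hT
  cases b with
  | true => simp at hT
  | false =>
    refine ⟨rfl, ?_⟩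
    by_contra hcon
    apply hT
    simp only [if_true, Bool.false_eq_true, if_false]
    rw [coeff_one_add, Nat.choose_eq_zero_of_lt (by omega), Nat.cast_zero]

theorem pos_one {M r m : ℕ} {b : Bool} (h : 12 * M ≤ r) (h' : r < 22 * M)
    (hT : coeff m (Tser M r b) ≠ 0) : b = true ∧ m ≤ r - 12 * M := by
  unfold Tser at hT
  rw [ty_one h h', dg_one h h'] at hT
  cases b with
  | false => simp at hT
  | true =>
    refine ⟨rfl, ?_⟩
    by_contra hcon
    apply hT
    simp only [one_ne_zero, if_true, if_false]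
    rw [coeff_one_add, Nat.choose_eq_zero_of_lt (by omega), Nat.cast_zero]

/-- exponent of the norm bound of an entry -/
def zz (M r m : ℕ) : ℤ :=
  if 22 * M ≤ r then -((3 * m / 2 : ℕ) : ℤ) + ((3 * (r - 22 * M) / 2 : ℕ) : ℤ) + 1 + cc m else 0

theorem norm_T (hb : ∀ k : ℕ, padicNorm 3 (bd k) ≤ (3 : ℚ) ^ (-((3 * k / 2 : ℕ) : ℤ) + cc k))
    (hr : ∀ k : ℕ, padicNorm 3 (rr k) ≤ (3 : ℚ) ^ (-((3 * k / 2 : ℕ) : ℤ) + cc k)) (M r m : ℕ) (b : Bool) :
    padicNorm 3 (coeff m (Tser M r b)) ≤ (3 : ℚ) ^ (zz M r m) := by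
  unfold Tser zz
  by_cases h2 : 22 * M ≤ r
  · rw [if_pos h2, ty_two h2, dg_two h2]
    simp only [OfNat.ofNat_ne_zero, OfNat.ofNat_ne_one, if_false]
    cases b with
    | true => simpa using norm_coeff_mul bd hb (r - 22 * M) m
    | false => simpa using norm_coeff_mul rr hr (r - 22 * M) m
  · rw [if_neg h2, zpow_zero]
    have hty : ty M r = 0 ∨ ty M r = 1 := by
      unfold ty
      split_ifs with h3 h4
      · exact Or.inl rfl
      · exact Or.inr rfl
      · exact absurd (not_lt.1 h4) h2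
    rcases hty with h | h
    · rw [h]
      cases b with
      | true => simp
      | false =>
        simp only [if_true, Bool.false_eq_true, if_false]
        rw [coeff_one_add]
        exact norm_choose _ _
    · rw [h]
      cases b with
      | false => simp
      | true =>
        simp only [one_ne_zero, if_true, if_false]
        rw [coeff_one_add]
        exact norm_choose _ _

omit P in
theorem cc_le (δ : ℝ) (hδ : 0 < δ) : ∃ C : ℝ, 0 ≤ C ∧ ∀ m : ℕ, (cc m : ℝ) ≤ δ * m + C := by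
  -- `log₂ (m + 1) ≤ (η (m + 1) - 1 - log η) / log 2`
  set η : ℝ := δ * Real.log 3 / 2 with hη
  have hl2 : 0 < Real.log 3 := Real.log_pos (by norm_num)
  have hη0 : 0 < η := by positivity
  refine ⟨|2 * ((η - 1 - Real.log η) / Real.log 3) + 4|, abs_nonneg _, fun m => ?_⟩
  have h1 : (Nat.log 3 (m + 1) : ℝ) ≤ Real.log (m + 1) / Real.log 3 := by
    have h2 := Real.natLog_le_logb (m + 1) 3
    unfold Real.logb at h2
    push_cast at h2
    exact h2
  have h2 : Real.log (m + 1) ≤ η * (m + 1) - 1 - Real.log η := by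
    have h3 := Real.log_le_sub_one_of_pos (show (0 : ℝ) < η * (m + 1) by positivity)
    rw [Real.log_mul hη0.ne' (by positivity)] at h3
    linarith
  have h3 : Real.log (m + 1) / Real.log 3 ≤ (η * (m + 1) - 1 - Real.log η) / Real.log 3 :=
    div_le_div_of_nonneg_right h2 hl2.le
  have h4 : (η * (m + 1) - 1 - Real.log η) / Real.log 3 =
      δ / 2 * m + (η - 1 - Real.log η) / Real.log 3 := by
    rw [hη]
    field_simp
    ring
  have h5 := le_abs_self (2 * ((η - 1 - Real.log η) / Real.log 3) + 4)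
  unfold cc
  push_cast
  linarith

/-! ### the bound -/

omit P in
theorem three_bound_core (hG : ∀ P : Par, (PowerSeries.mk (gam (P := P)) : ℚ⟦X⟧) =
      PowerSeries.mk (bd (P := P)) * PowerSeries.mk lc + PowerSeries.mk (rr (P := P)))
    (hb' : ∀ (P : Par) (k : ℕ),
      padicNorm 3 (bd (P := P) k) ≤ (3 : ℚ) ^ (-((3 * k / 2 : ℕ) : ℤ) + cc k))
    (hr' : ∀ (P : Par) (k : ℕ),
      padicNorm 3 (rr (P := P) k) ≤ (3 : ℚ) ^ (-((3 * k / 2 : ℕ) : ℤ) + cc k))
    (hl : ∀ n : ℕ, padicNorm 3 (lc n) ≤ (3 : ℚ) ^ Nat.log 3 n)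
    (ε : ℝ) (hε : 0 < ε) : ∃ C : ℝ, ∀ (P : Par) (M : ℕ), 1 ≤ M →
    ∀ n : Fin (30 * M) → ℕ, StrictMono n → (mat M n).det ≠ 0 →
      (213 / 2 - ε) * (M : ℝ) ^ 2 - C * M - ∑ t, (Nat.log 3 (n t) : ℝ) ≤
        (padicValRat 3 (mat M n).det : ℝ) := by
  classical
  set δ : ℝ := min (ε / 103) 1 with hδ
  have hδ0 : 0 < δ := lt_min (by positivity) one_pos
  have hδ1 : δ ≤ 1 := min_le_right _ _
  have hδ2 : 103 * δ ≤ ε := by
    have := min_le_left (ε / 103) 1
    rw [← hδ] at this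
    linarith
  obtain ⟨C', hC', hcc⟩ := cc_le δ hδ0
  refine ⟨18 + 8 * C', fun P M hM n _ hdet => ?_⟩
  have hb := hb' P
  have hr := hr' P
  have hM0 : (0 : ℝ) < M := by exact_mod_cast hM
  -- the truncation
  obtain ⟨L, hL⟩ : ∃ L : ℕ, ∀ t, n t < L := by
    refine ⟨(Finset.univ.sup n) + 1, fun t => ?_⟩
    exact Nat.lt_succ_of_le (Finset.le_sup (Finset.mem_univ t))
  set T : Fin (30 * M) → Bool × Fin L → ℚ := fun r κ => coeff (κ.2 : ℕ) (Tser M r κ.1) with hT
  set E : Bool × Fin L → Fin (30 * M) → ℚ := fun κ t => Ee (κ.1, κ.2) (n t) with hE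
  have hmat : mat M n = Matrix.of fun r t => ∑ κ, T r κ * E κ t := by
    ext r t
    exact coeff_row (hG P) M r (n t) L (hL t)
  set X : ℝ := (213 / 2 - ε) * (M : ℝ) ^ 2 - (18 + 8 * C') * M - ∑ t, (Nat.log 3 (n t) : ℝ) with hX
  have key : padicNorm 3 (mat M n).det ≤ (3 : ℚ) ^ (⌊-X⌋) := by
    rw [hmat, det_expand]
    refine padicNorm.sum_le' (fun φ _ => ?_) (by positivity)
    by_cases hterm : (∏ r, T r (φ r)) * (Matrix.of fun r => E (φ r)).det = 0
    · rw [hterm, padicNorm.zero]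
      positivity
    have hT0 : ∀ r, T r (φ r) ≠ 0 := fun r h =>
      hterm (by rw [Finset.prod_eq_zero (Finset.mem_univ r) h, zero_mul])
    have hE0 : (Matrix.of fun r => E (φ r)).det ≠ 0 := fun h => hterm (by rw [h, mul_zero])
    have hinj : Function.Injective φ := by
      intro r r' h
      by_contra hne
      exact hE0 (Matrix.det_zero_of_row_eq hne (by
        show E (φ r) = E (φ r')
        rw [h]))
    -- the norm of the term
    have n1 : padicNorm 3 (∏ r, T r (φ r)) ≤ (3 : ℚ) ^ (∑ r : Fin (30 * M), zz M r (φ r).2) :=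
      norm_prod_le _ _ _ fun r _ => norm_T hb hr M r _ _
    have n2 : padicNorm 3 (Matrix.of fun r => E (φ r)).det ≤
        (3 : ℚ) ^ (∑ t, ((Nat.log 3 (n t) : ℕ) : ℤ)) :=
      norm_det_le _ _ fun r t => norm_Ee hl _ _
    rw [padicNorm.mul]
    refine (mul_le_mul n1 n2 (norm_two_nonneg _) (by positivity)).trans ?_
    rw [← zpow_add₀ (by norm_num : (3 : ℚ) ≠ 0)]
    apply zpow_le_zpow_right₀ (by norm_num)
    rw [Int.le_floor]
    -- the positions
    have p1 := sum_pos M (fun r => (φ r).1) (fun r => ((φ r).2 : ℕ))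
      (fun r r' h h' => hinj (Prod.ext h (Fin.ext h')))
      (fun r h => pos_zero h (hT0 r)) (fun r h h' => pos_one h h' (hT0 r))
    have p2 := sum_small M
    set S := Finset.univ.filter (fun r : Fin (30 * M) => 22 * M ≤ (r : ℕ)) with hS
    have hSc : S.card ≤ 8 * M := by
      have e1 : S.card ≤ (Finset.Ico (22 * M) (30 * M)).card := by
        refine Finset.card_le_card_of_injOn (fun r => (r : ℕ)) ?_ ?_
        · intro r hr
          have := (Finset.mem_filter.1 (Finset.mem_coe.1 hr)).2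
          exact Finset.mem_coe.2 (Finset.mem_Ico.2 ⟨this, r.2⟩)
        · intro r _ r' _ h
          exact Fin.ext h
      rw [Nat.card_Ico] at e1
      omega
    have s1 : ((∑ r : Fin (30 * M), zz M r (φ r).2 : ℤ) : ℝ) ≤
        ∑ r ∈ S, (-(3 / 2 * (((φ r).2 : ℕ) : ℝ)) + 3 / 2 * (((r : ℕ) - 22 * M : ℕ) : ℝ) + 3 / 2 +
          (cc ((φ r).2 : ℕ) : ℝ)) := by
      rw [hS, Finset.sum_filter, Int.cast_sum]
      refine Finset.sum_le_sum fun r _ => ?_
      unfold zz
      split_ifs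
      · have f1 : (3 * (((φ r).2 : ℕ) : ℝ)) ≤ 2 * ((3 * ((φ r).2 : ℕ) / 2 : ℕ) : ℝ) + 1 := by
          have : 3 * ((φ r).2 : ℕ) ≤ 2 * (3 * ((φ r).2 : ℕ) / 2) + 1 := by omega
          exact_mod_cast this
        have f2 : 2 * ((3 * ((r : ℕ) - 22 * M) / 2 : ℕ) : ℝ) ≤ 3 * (((r : ℕ) - 22 * M : ℕ) : ℝ) := by
          have : 2 * (3 * ((r : ℕ) - 22 * M) / 2) ≤ 3 * ((r : ℕ) - 22 * M) := by omega
          exact_mod_cast this
        simp only [Int.cast_add, Int.cast_neg, Int.cast_natCast, Int.cast_one]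
        linarith
      · simp
    have s2 : ∑ r ∈ S, (cc ((φ r).2 : ℕ) : ℝ) ≤ δ * ∑ r ∈ S, (((φ r).2 : ℕ) : ℝ) + 8 * M * C' := by
      have e1 : ∑ r ∈ S, (cc ((φ r).2 : ℕ) : ℝ) ≤ ∑ r ∈ S, (δ * (((φ r).2 : ℕ) : ℝ) + C') :=
        Finset.sum_le_sum fun r _ => hcc _
      rw [Finset.sum_add_distrib, ← Finset.mul_sum, Finset.sum_const, nsmul_eq_mul] at e1
      have e2 : (S.card : ℝ) * C' ≤ 8 * M * C' := by
        apply mul_le_mul_of_nonneg_right _ hC'
        exact_mod_cast hSc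
      linarith
    have s3 : 206 * (M : ℝ) ^ 2 ≤ 2 * ∑ r ∈ S, (((φ r).2 : ℕ) : ℝ) + 8 * M := by
      exact_mod_cast p1
    have s4 : ∑ r ∈ S, (((r : ℕ) - 22 * M : ℕ) : ℝ) ≤ 32 * (M : ℝ) ^ 2 := by
      exact_mod_cast p2
    push_cast
    rw [Finset.sum_add_distrib, Finset.sum_add_distrib, Finset.sum_add_distrib,
      Finset.sum_neg_distrib, ← Finset.mul_sum, ← Finset.mul_sum, Finset.sum_const,
      nsmul_eq_mul] at s1
    push_cast at s1
    have s0 : (S.card : ℝ) * (3 / 2) ≤ 8 * M * (3 / 2) := by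
      apply mul_le_mul_of_nonneg_right _ (by norm_num)
      exact_mod_cast hSc
    rw [hX]
    set Y := ∑ r ∈ S, (((φ r).2 : ℕ) : ℝ) with hY
    have s5 : (3 / 2 - δ) * (103 * (M : ℝ) ^ 2 - 4 * M) ≤ (3 / 2 - δ) * Y :=
      mul_le_mul_of_nonneg_left (by linarith) (by linarith)
    have s6 : 103 * δ * (M : ℝ) ^ 2 ≤ ε * (M : ℝ) ^ 2 :=
      mul_le_mul_of_nonneg_right hδ2 (sq_nonneg _)
    have s7 : 0 ≤ δ * (4 * (M : ℝ)) := by positivity
    nlinarith
  -- conclusion
  rw [padicNorm.eq_zpow_of_nonzero hdet] at key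
  have k1 := (zpow_le_zpow_iff_right₀ (by norm_num : (1 : ℚ) < 3)).1 (by exact_mod_cast key)
  have k2 : ((⌊-X⌋ : ℤ) : ℝ) ≤ -X := Int.floor_le _
  have k3 : ((-padicValRat 3 (mat M n).det : ℤ) : ℝ) ≤ ((⌊-X⌋ : ℤ) : ℝ) := by exact_mod_cast k1
  push_cast at k3
  linarith

end

end Run7.h510.B3.ThreeCore
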