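import Mathlib
import Pool.Agent.Run7.h257.TwoA
import Pool.Agent.Run7.h257.Odd
import Pool.Agent.Run7.h510.B3.Defs
import Pool.Agent.Run7.h510.B3.Rec

/-!
The 3-adic identity and the valuations of `bet` and `rr`.
-/

namespace Run7.h510.B3

noncomputable section

open PowerSeries Run7.h257

variable [P : Par]

omit P in
lemma three_mul' (f : ℚ⟦X⟧) : 3 * f = f + f + f := by ring

omit P in
/-- uniqueness for `f + 3 T f = g`. -/
lemma TT_unique (f g : ℚ⟦X⟧) (h : f + 3 * TT f = g + 3 * TT g) : f = g := by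
  have hs : ∀ n, PowerSeries.coeff n f = PowerSeries.coeff n g := by
    intro n
    induction n with
    | zero =>
      have := congrArg (PowerSeries.coeff 0) h
      simpa [three_mul', TT_const] using this
    | succ n ih =>
      have := congrArg (PowerSeries.coeff (n + 1)) h
      simp only [three_mul', map_add, TT_succ] at this
      rw [ih] at this
      have h3 : (3 * (n : ℚ) + 4) * (PowerSeries.coeff (n + 1) f - PowerSeries.coeff (n + 1) g)
          = 0 := by linarith
      have h4 : (3 * (n : ℚ) + 4) ≠ 0 := by positivity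
      have h5 := (mul_eq_zero.mp h3).resolve_left h4
      linarith
  ext n
  exact hs n

omit P in
lemma bet_ode : PowerSeries.mk bet + 3 * TT (PowerSeries.mk bet) = 1 + X := by
  ext n
  rcases n with _ | n
  · simp [three_mul', TT_const, bet]
  · simp only [three_mul', map_add, TT_succ, PowerSeries.coeff_mk, PowerSeries.coeff_one,
      PowerSeries.coeff_X]
    rcases n with _ | n
    · simp [bet]
      norm_num
    · rw [if_neg (by omega), if_neg (by omega)]
      have h1 : (3 * (n : ℚ) + 7) ≠ 0 := by positivity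
      have h2 : bet (n + 1 + 1) = -3 * (n + 1) * bet (n + 1) / (3 * n + 7) := rfl
      rw [h2]
      push_cast
      field_simp
      ring

lemma rr_ode : PowerSeries.mk rr + 3 * TT (PowerSeries.mk rr) =
    PowerSeries.C (-3 * (P.D : ℚ)) * (X * PowerSeries.mk bet) +
      PowerSeries.C ((P.N : ℚ)) * (1 + X) := by
  ext n
  rcases n with _ | n
  · simp [three_mul', TT_const, rr]
  · simp only [three_mul', map_add, PowerSeries.coeff_C_mul, TT_succ, PowerSeries.coeff_mk,
      PowerSeries.coeff_succ_X_mul, PowerSeries.coeff_one, PowerSeries.coeff_X]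
    rcases n with _ | n
    · simp [bet, rr]
      ring
    · have h1 : (3 * (n : ℚ) + 7) ≠ 0 := by positivity
      have h2 : bet (n + 1 + 1) = -3 * (n + 1) * bet (n + 1) / (3 * n + 7) := rfl
      have h3 : harmonic (n + 1) = harmonic n + (n + 1 : ℚ)⁻¹ := by
        rw [harmonic_succ]; push_cast; rfl
      have h4 : rr (n + 1 + 1) = bet (n + 1 + 1) * (P.D * (harmonic (n + 1) - 3) + P.N) := by
        unfold rr
        rw [if_neg (by omega)]
        rfl
      have h5 : rr (n + 1) = bet (n + 1) * (P.D * (harmonic n - 3) + P.N) := by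
        unfold rr
        rw [if_neg (by omega)]
        rfl
      have h6 : ((n : ℚ) + 1) ≠ 0 := by positivity
      rw [h4, h5, h2, h3, if_neg (by omega), if_neg (by omega)]
      push_cast
      field_simp
      ring

lemma gam_ode :
    PowerSeries.mk gam + 3 * TT (PowerSeries.mk gam) =
      (1 + X) * (PowerSeries.C (P.D : ℚ) * PowerSeries.mk lc + PowerSeries.C ((P.N : ℚ))) := by
  ext n
  rcases n with _ | n
  · rw [coeff_onePlus_mul_zero]
    simp [three_mul', TT_const, gam, lc]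
  · rw [coeff_onePlus_mul_succ]
    simp only [three_mul', map_add, TT_succ, PowerSeries.coeff_mk, PowerSeries.coeff_C_mul]
    rcases n with _ | n
    · simp only [zero_add, gam_one, gam_zero, lc, PowerSeries.coeff_C]
      norm_num
      ring
    · have h2 := gam_rec (n + 1 + 1) (by omega)
      have h3 : n + 1 + 1 - 1 = n + 1 := by omega
      rw [h3] at h2
      push_cast at h2
      have h5 : ((n : ℚ) + 1) ≠ 0 := by positivity
      have h6 : ((n : ℚ) + 1 + 1) ≠ 0 := by positivity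
      have h7 : ((n : ℚ) + 1 + 1 - 1) = n + 1 := by ring
      rw [h7] at h2
      have h8 : (P.D : ℚ) * lc (n + 1 + 1) + P.D * lc (n + 1) =
          P.D * ((-1) ^ (n + 1 + 1) / (((n : ℚ) + 1 + 1) * (n + 1))) := by
        unfold lc
        push_cast
        field_simp
        ring
      simp only [PowerSeries.coeff_C]
      rw [if_neg (by omega), if_neg (by omega), add_zero, add_zero, h8, ← h2]
      push_cast
      ring

theorem G_eq : (PowerSeries.mk gam : ℚ⟦X⟧) =
      PowerSeries.mk bd * PowerSeries.mk lc + PowerSeries.mk rr := by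
  have hbd : (PowerSeries.mk bd : ℚ⟦X⟧) = PowerSeries.C (P.D : ℚ) * PowerSeries.mk bet := by
    ext n
    rw [PowerSeries.coeff_C_mul, PowerSeries.coeff_mk, PowerSeries.coeff_mk, bd]
  have hC : TT (PowerSeries.C (P.D : ℚ)) = 0 := by
    unfold TT
    have : derivative ℚ (PowerSeries.C (P.D : ℚ)) = 0 := by
      ext n
      rw [PowerSeries.coeff_derivative, PowerSeries.coeff_C]
      simp
    rw [this]
    simp
  apply TT_unique
  rw [gam_ode, TT_add, hbd, TT_mul, TT_mul, TT_lc, hC]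
  have h3 : (PowerSeries.C (-3 * (P.D : ℚ)) : ℚ⟦X⟧) = -3 * PowerSeries.C (P.D : ℚ) := by
    rw [map_mul, map_neg]
    rfl
  have h := rr_ode (P := P)
  rw [h3] at h
  linear_combination (-(PowerSeries.C (P.D : ℚ) * PowerSeries.mk lc : ℚ⟦X⟧)) * bet_ode - h

/-! ### valuations -/

omit P

lemma norm_factorial (k : ℕ) (hk : 1 ≤ k) :
    padicNorm 3 ((k.factorial : ℕ) : ℚ) ≤
      (3 : ℚ) ^ (-((k / 2 : ℕ) : ℤ) + (Nat.log 3 k + 1 : ℕ)) := by
  have h2 : Fact (Nat.Prime 3) := ⟨Nat.prime_three⟩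
  have h0 : ((k.factorial : ℕ) : ℚ) ≠ 0 := by exact_mod_cast k.factorial_ne_zero
  rw [padicNorm.eq_zpow_of_nonzero h0, padicValRat.of_nat]
  have h3 := sub_one_mul_padicValNat_factorial (p := 3) k
  rw [show (3 - 1 : ℕ) = 2 from rfl] at h3
  have h4 : (Nat.digits 3 k).sum ≤ (Nat.log 3 k + 1) * 2 := by
    have h5 : (Nat.digits 3 k).length = Nat.log 3 k + 1 := Nat.length_digits 3 k (by norm_num) (by omega)
    rw [← h5]
    have h6 : ∀ x ∈ Nat.digits 3 k, x ≤ 2 := by
      intro x hx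
      have := Nat.digits_lt_base (by norm_num : 1 < 3) hx
      omega
    have h7 := List.sum_le_card_nsmul (Nat.digits 3 k) 2 h6
    simpa using h7
  have h8 : ((3 : ℕ) : ℚ) = 3 := by norm_num
  rw [h8]
  apply zpow_le_zpow_right₀ (by norm_num)
  have h9 : (Nat.digits 3 k).sum ≤ k := Nat.digit_sum_le 3 k
  generalize padicValNat 3 k.factorial = v at h3 ⊢
  omega

lemma bet_succ_eq (k : ℕ) :
    padicNorm 3 (bet (k + 1)) = (3 : ℚ) ^ (-(k : ℤ)) * padicNorm 3 ((k.factorial : ℕ) : ℚ) := by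
  have h2 : Fact (Nat.Prime 3) := ⟨Nat.prime_three⟩
  have odd_norm : ∀ m : ℕ, ¬ 3 ∣ m → padicNorm 3 (m : ℚ) = 1 := by
    intro m hm
    exact (padicNorm.nat_eq_one_iff m).mpr hm
  have n2 : padicNorm 3 (3 : ℚ) = 3⁻¹ := by
    have := padicNorm.padicNorm_p_of_prime (p := 3)
    exact_mod_cast this
  induction k with
  | zero =>
    have h3 : bet 1 = 1 / ((4 : ℕ) : ℚ) := by simp [bet]
    rw [zero_add, h3, padicNorm.div, odd_norm 4 (by omega)]
    simp
  | succ k ih =>
    have h3 : bet (k + 1 + 1) =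
        -(3 * ((k + 1 : ℕ) : ℚ) * bet (k + 1)) / ((3 * k + 7 : ℕ) : ℚ) := by
      have : bet (k + 1 + 1) = -3 * (k + 1) * bet (k + 1) / (3 * k + 7) := rfl
      rw [this]
      push_cast
      ring
    rw [h3, padicNorm.div, padicNorm.neg, padicNorm.mul, padicNorm.mul, ih,
      odd_norm (3 * k + 7) (by omega), n2, Nat.factorial_succ]
    have h5 : (((k + 1) * k.factorial : ℕ) : ℚ) = ((k + 1 : ℕ) : ℚ) * ((k.factorial : ℕ) : ℚ) := by
      push_cast; ring
    rw [h5, padicNorm.mul, div_one]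
    have h6 : (3 : ℚ) ^ (-((k + 1 : ℕ) : ℤ)) = 3⁻¹ * (3 : ℚ) ^ (-(k : ℤ)) := by
      rw [show (-((k + 1 : ℕ) : ℤ)) = -1 + -(k : ℤ) by push_cast; ring, zpow_add₀ (by norm_num)]
      norm_num
    rw [h6]
    ring

lemma bet_norm' (k : ℕ) :
    padicNorm 3 (bet k) ≤ (3 : ℚ) ^ (-((3 * k / 2 : ℕ) : ℤ) + (Nat.log 3 (k + 1) + 4 : ℕ)) := by
  rcases k with _ | k
  · simp only [bet]
    rw [padicNorm.one]
    apply one_le_zpow₀ (by norm_num)
    push_cast
    positivity
  · rw [bet_succ_eq]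
    rcases Nat.eq_zero_or_pos k with rfl | hk
    · have h2 : Fact (Nat.Prime 3) := ⟨Nat.prime_three⟩
      simp only [Nat.factorial_zero, Nat.cast_one, padicNorm.one, mul_one, Nat.cast_zero, neg_zero,
        zpow_zero]
      apply one_le_zpow₀ (by norm_num)
      push_cast
      omega
    · calc (3 : ℚ) ^ (-(k : ℤ)) * padicNorm 3 ((k.factorial : ℕ) : ℚ)
          ≤ (3 : ℚ) ^ (-(k : ℤ)) * (3 : ℚ) ^ (-((k / 2 : ℕ) : ℤ) + (Nat.log 3 k + 1 : ℕ)) := by
            gcongr
            exact norm_factorial k hk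
        _ = (3 : ℚ) ^ (-(k : ℤ) + (-((k / 2 : ℕ) : ℤ) + (Nat.log 3 k + 1 : ℕ))) := by
            rw [← zpow_add₀ (by norm_num)]
        _ ≤ _ := by
            apply zpow_le_zpow_right₀ (by norm_num)
            have h5 : Nat.log 3 k ≤ Nat.log 3 (k + 1 + 1) := Nat.log_mono_right (by omega)
            push_cast
            omega

theorem bet_norm (k : ℕ) : padicNorm 3 (bet k) ≤ (3 : ℚ) ^ (-((3 * k / 2 : ℕ) : ℤ) + cc k) := by
  refine (bet_norm' k).trans ?_
  apply zpow_le_zpow_right₀ (by norm_num)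
  unfold cc
  push_cast
  omega

theorem bd_norm [P : Par] (k : ℕ) :
    padicNorm 3 (bd k) ≤ (3 : ℚ) ^ (-((3 * k / 2 : ℕ) : ℤ) + cc k) := by
  have h2 : Fact (Nat.Prime 3) := ⟨Nat.prime_three⟩
  unfold bd
  rw [padicNorm.mul]
  calc padicNorm 3 (P.D : ℚ) * padicNorm 3 (bet k) ≤
        1 * (3 : ℚ) ^ (-((3 * k / 2 : ℕ) : ℤ) + cc k) :=
        mul_le_mul (nat_norm_le Nat.prime_three _) (bet_norm k) (padicNorm.nonneg _) zero_le_one
    _ = _ := one_mul _

lemma fac_norm_three [P : Par] (n : ℕ) :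
    padicNorm 3 (P.D * (harmonic n - 3) + P.N) ≤ (3 : ℚ) ^ Nat.log 3 n := by
  have h2 : Fact (Nat.Prime 3) := ⟨Nat.prime_three⟩
  have h1 : (1 : ℚ) ≤ (3 : ℚ) ^ Nat.log 3 n := one_le_pow₀ (by norm_num)
  have hA : padicNorm 3 (harmonic n) ≤ (3 : ℚ) ^ Nat.log 3 n := by
    have := harm_norm Nat.prime_three n
    exact_mod_cast this
  have hB : padicNorm 3 (harmonic n - 3) ≤ (3 : ℚ) ^ Nat.log 3 n := by
    refine (padicNorm.sub (p := 3)).trans (max_le hA ?_)
    have := nat_norm_le Nat.prime_three 3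
    exact le_trans (by exact_mod_cast this) h1
  refine (padicNorm.nonarchimedean (p := 3)).trans (max_le ?_ ?_)
  · rw [padicNorm.mul]
    calc padicNorm 3 (P.D : ℚ) * padicNorm 3 (harmonic n - 3) ≤ 1 * (3 : ℚ) ^ Nat.log 3 n :=
          mul_le_mul (nat_norm_le Nat.prime_three _) hB (padicNorm.nonneg _) zero_le_one
      _ = _ := one_mul _
  · exact (int_norm_le Nat.prime_three _).trans h1

theorem rr_norm [P : Par] (k : ℕ) :
    padicNorm 3 (rr k) ≤ (3 : ℚ) ^ (-((3 * k / 2 : ℕ) : ℤ) + cc k) := by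
  have h2 : Fact (Nat.Prime 3) := ⟨Nat.prime_three⟩
  unfold rr
  split_ifs with hk
  · refine (int_norm_le Nat.prime_three _).trans ?_
    apply one_le_zpow₀ (by norm_num)
    unfold cc
    subst hk
    push_cast
    omega
  · rw [padicNorm.mul]
    calc padicNorm 3 (bet k) * padicNorm 3 (P.D * (harmonic (k - 1) - 3) + P.N)
        ≤ (3 : ℚ) ^ (-((3 * k / 2 : ℕ) : ℤ) + (Nat.log 3 (k + 1) + 4 : ℕ)) *
            (3 : ℚ) ^ Nat.log 3 (k - 1) := by
          refine mul_le_mul (bet_norm' k) (fac_norm_three _) (padicNorm.nonneg _) (by positivity)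
      _ = (3 : ℚ) ^ ((-((3 * k / 2 : ℕ) : ℤ) + (Nat.log 3 (k + 1) + 4 : ℕ)) +
            (Nat.log 3 (k - 1) : ℕ)) := by
          rw [zpow_add₀ (by norm_num) _ ((Nat.log 3 (k - 1) : ℕ) : ℤ), zpow_natCast]
      _ ≤ _ := by
          apply zpow_le_zpow_right₀ (by norm_num)
          unfold cc
          have h5 : Nat.log 3 (k - 1) ≤ Nat.log 3 (k + 1) := Nat.log_mono_right (by omega)
          push_cast
          omega

end

end Run7.h510.B3
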