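import Mathlib
import Pool.Agent.Run7.h257.Final
import Pool.Agent.Run7.h510.B3.Arch
import Pool.Agent.Run7.h510.B3.Odd
import Pool.Agent.Run7.h510.B3.Two
import Pool.Agent.Run7.h510.B3.ThreeCore
import Pool.Agent.Run7.h510.B3.ZeroRows
import Pool.Agent.Run7.h510.B3.Pnt

namespace Run7.h510.B3

noncomputable section

open PowerSeries Filter Topology Metric
open Run7.h257 (eL Bw Bw_pos al log_eL sum_wt det_le_prod lc lc_norm)

/-- upper bound for the determinant. -/
lemma upper (δ : ℝ) (hδ : 0 < δ) : ∃ C : ℝ, 0 < C ∧ ∀ (P : Par) (M : ℕ), 1 ≤ M →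
    ∀ n : Fin (30 * M) → ℕ, (mat M n).det ≠ 0 →
      (∀ (t : Fin (30 * M)) (k : ℕ), k < n t → ∀ c : Fin (30 * M) → ℝ,
        (∀ s, s < t → ∑ r, c r * ((PowerSeries.coeff (n s) (row M r) : ℚ) : ℝ) = 0) →
          ∑ r, c r * ((PowerSeries.coeff k (row M r) : ℚ) : ℝ) = 0) →
      Real.log |((mat M n).det : ℝ)| ≤ 30 * M * Real.log (C * P.ht * M) + 447 * (M : ℝ) ^ 2 -
        (Real.log eL - δ) * ∑ t, (n t : ℝ) := by
  obtain ⟨C, hC0, hC⟩ := arch_row δ hδ
  refine ⟨C, hC0, ?_⟩
  intro P M hM n hdet hgr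
  have hMpos : (0 : ℝ) < M := by exact_mod_cast hM
  have hht : 0 < P.ht := by linarith [P.one_le_ht]
  have heL : 0 < eL := by
    by_contra h
    have h1 := log_eL
    have h2 : eL ≤ 0 := not_lt.mp h
    have h3 : Real.log eL ≤ 0 := by
      rcases eq_or_lt_of_le h2 with h4 | h4
      · rw [h4]; simp
      · have : 0 < Real.sin al := by
          apply Real.sin_pos_of_pos_of_lt_pi
          · unfold al; positivity
          · unfold al; linarith [Real.pi_pos]
        exfalso
        have h5 : 0 < eL := by unfold eL; positivity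
        linarith
    linarith
  set b : Fin (30 * M) → ℝ := fun t =>
    C * P.ht * M * Real.exp (57 / 2 * M) * (Real.exp δ / eL) ^ n t with hb
  have hbpos : ∀ t, 0 < b t := fun t => by rw [hb]; positivity
  set A : Matrix (Fin (30 * M)) (Fin (30 * M)) ℝ :=
    Matrix.of fun r t => Bw M r * ((mat M n).map (Rat.cast : ℚ → ℝ)) r t with hA
  have hdetA : A.det = (∏ r : Fin (30 * M), Bw M r) * ((mat M n).det : ℝ) := by
    rw [hA, Matrix.det_mul_column]
    congr 1
    exact (RingHom.map_det (Rat.castHom ℝ) (mat M n)).symm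
  have h1 : |A.det| ≤ ∏ t, b t := by
    apply det_le_prod
    intro t c hc hs
    apply (hC P M hM c hc (n t) ?_)
    intro k hk
    have := hgr t k hk (fun r => c r * Bw M r) ?_
    · rw [← this]
      apply Finset.sum_congr rfl
      intro r _
      ring
    · intro s hst
      have := hs s hst
      rw [← this]
      apply Finset.sum_congr rfl
      intro r _
      rw [hA]
      simp only [Matrix.of_apply, Matrix.map_apply, mat]
      ring
  have hdet' : ((mat M n).det : ℝ) ≠ 0 := by exact_mod_cast hdet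
  have hBpos : 0 < ∏ r : Fin (30 * M), Bw M r := Finset.prod_pos (fun r _ => Real.exp_pos _)
  rw [hdetA, abs_mul, abs_of_pos hBpos] at h1
  have h2 := Real.log_le_log (by positivity) h1
  rw [Real.log_mul hBpos.ne' (abs_pos.mpr hdet').ne', Real.log_prod (fun t _ => (hbpos t).ne'),
    Real.log_prod (s := Finset.univ) (f := fun r : Fin (30 * M) => Bw M r)
      (fun r _ => (Bw_pos M r).ne')] at h2
  have h3 : ∑ r : Fin (30 * M), Real.log (Bw M r) = 408 * (M : ℝ) ^ 2 := by
    simp only [Bw, Real.log_exp]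
    rw [← Finset.mul_sum, sum_wt]
    ring
  have h4 : ∑ t, Real.log (b t) = 30 * M * Real.log (C * P.ht * M) + 855 * (M : ℝ) ^ 2 -
      (Real.log eL - δ) * ∑ t, (n t : ℝ) := by
    have : ∀ t, Real.log (b t) = (Real.log (C * P.ht * M) + 57 / 2 * M) + (δ - Real.log eL) * n t := by
      intro t
      simp only [hb]
      rw [Real.log_mul (by positivity) (by positivity), Real.log_mul (by positivity) (by positivity),
        Real.log_exp, Real.log_pow, Real.log_div (by positivity) heL.ne', Real.log_exp]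
      ring
    rw [Finset.sum_congr rfl (fun t _ => this t), Finset.sum_add_distrib, ← Finset.mul_sum,
      Finset.sum_const, Finset.card_univ, Fintype.card_fin, nsmul_eq_mul]
    push_cast
    ring
  rw [h3, h4] at h2
  linarith

lemma ddF_mono (P₀ p : ℕ) : Monotone (dd P₀ p) := by
  intro m n hmn
  unfold dd
  split_ifs with h1 h2 h2
  · exact Nat.log_mono_right (by omega)
  · exfalso
    apply h2
    rcases h1 with h | h
    · exact Or.inl h
    · exact Or.inr (by omega)
  · exact Nat.zero_le _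
  · exact le_refl _

lemma ddF_eq_zero {P₀ p n : ℕ} (h : 3 * n + 1 < p) : dd P₀ p n = 0 := by
  unfold dd
  split_ifs
  · exact Nat.log_of_lt h
  · rfl


theorem three_bound (ε : ℝ) (hε : 0 < ε) : ∃ C : ℝ, ∀ (P : Par) (M : ℕ), 1 ≤ M →
    ∀ n : Fin (30 * M) → ℕ, StrictMono n → (mat M n).det ≠ 0 →
      (213 / 2 - ε) * (M : ℝ) ^ 2 - C * M - ∑ t, (Nat.log 3 (n t) : ℝ) ≤
        (padicValRat 3 (mat M n).det : ℝ) :=
  ThreeCore.three_bound_core (fun P => G_eq) (fun P => bd_norm) (fun P => rr_norm)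
    (fun n => by simpa using lc_norm Nat.prime_three n) ε hε

lemma log3F_bound (ε : ℝ) (hε : 0 < ε) : ∃ C : ℝ, ∀ m : ℕ,
    (Nat.log 3 m : ℝ) * Real.log 3 ≤ ε * m + C := by
  refine ⟨|Real.log ε|, ?_⟩
  intro m
  rcases Nat.eq_zero_or_pos m with h0 | hpos
  · subst h0
    simp
  · have h1 : (3 : ℝ) ^ Nat.log 3 m ≤ m := by exact_mod_cast Nat.pow_log_le_self 3 hpos.ne'
    have h2 := Real.log_le_log (by positivity) h1
    rw [Real.log_pow] at h2
    have hm : (0 : ℝ) < m := by exact_mod_cast hpos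
    have h3 : Real.log (ε * m) ≤ ε * m - 1 := Real.log_le_sub_one_of_pos (by positivity)
    rw [Real.log_mul hε.ne' hm.ne'] at h3
    have h4 := neg_abs_le (Real.log ε)
    linarith

end

end Run7.h510.B3
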