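import Mathlib

/-!
Lerch's formula: `c q_p(c) + ∑_{i<c} H_{[ip/c]} ≡ 0 (mod p)`.
-/

namespace Run7.h510

/-- `x ≡ 0 (mod p)`. -/
def Sm (p : ℕ) (x : ℚ) : Prop := padicNorm p x ≤ (p : ℚ)⁻¹

/-- `x` is `p`-integral. -/
def Ig (p : ℕ) (x : ℚ) : Prop := padicNorm p x ≤ 1

section
variable {p : ℕ} (hp : p.Prime)
include hp

theorem Sm.add {x y : ℚ} (hx : Sm p x) (hy : Sm p y) : Sm p (x + y) := by
  have := Fact.mk hp
  exact (padicNorm.nonarchimedean (p := p)).trans (max_le hx hy)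

theorem Sm.neg {x : ℚ} (hx : Sm p x) : Sm p (-x) := by
  have := Fact.mk hp
  unfold Sm
  rw [padicNorm.neg]
  exact hx

theorem Sm.sub {x y : ℚ} (hx : Sm p x) (hy : Sm p y) : Sm p (x - y) := by
  rw [sub_eq_add_neg]
  exact Sm.add hp hx (Sm.neg hp hy)

theorem Sm.sum {ι : Type*} (s : Finset ι) (f : ι → ℚ) (h : ∀ i ∈ s, Sm p (f i)) :
    Sm p (∑ i ∈ s, f i) := by
  have := Fact.mk hp
  exact padicNorm.sum_le' h (by positivity)

theorem Ig.add {x y : ℚ} (hx : Ig p x) (hy : Ig p y) : Ig p (x + y) := by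
  have := Fact.mk hp
  exact (padicNorm.nonarchimedean (p := p)).trans (max_le hx hy)

theorem Ig.mul {x y : ℚ} (hx : Ig p x) (hy : Ig p y) : Ig p (x * y) := by
  have := Fact.mk hp
  unfold Ig
  rw [padicNorm.mul]
  exact mul_le_one₀ hx (padicNorm.nonneg _) hy

theorem Sm.mul {x y : ℚ} (hx : Sm p x) (hy : Ig p y) : Sm p (x * y) := by
  have := Fact.mk hp
  unfold Sm at *
  rw [padicNorm.mul]
  calc padicNorm p x * padicNorm p y ≤ (p : ℚ)⁻¹ * 1 :=
        mul_le_mul hx hy (padicNorm.nonneg _) (by positivity)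
    _ = _ := mul_one _

theorem Ig.sum {ι : Type*} (s : Finset ι) (f : ι → ℚ) (h : ∀ i ∈ s, Ig p (f i)) :
    Ig p (∑ i ∈ s, f i) := by
  have := Fact.mk hp
  exact padicNorm.sum_le' h (by positivity)

theorem Ig.int (n : ℤ) : Ig p (n : ℚ) := by
  have := Fact.mk hp
  exact padicNorm.of_int n

theorem Ig.nat (n : ℕ) : Ig p (n : ℚ) := by
  have := Fact.mk hp
  exact padicNorm.of_nat n

theorem Sm.p_mul {x : ℚ} (hx : Ig p x) : Sm p (p * x) := by
  have := Fact.mk hp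
  apply Sm.mul hp _ hx
  unfold Sm
  rw [padicNorm.padicNorm_p_of_prime]

theorem Ig.inv {m : ℕ} (hm : ¬ p ∣ m) : Ig p ((m : ℚ)⁻¹) := by
  have := Fact.mk hp
  unfold Ig
  have : padicNorm p ((m : ℚ)⁻¹) = (padicNorm p (m : ℚ))⁻¹ := by
    rw [← one_div, padicNorm.div, padicNorm.one, one_div]
  rw [this, (padicNorm.nat_eq_one_iff (p := p) m).mpr hm, inv_one]

/-- cancellation of a unit. -/
theorem Sm.of_mul {m : ℕ} (hm : ¬ p ∣ m) {x : ℚ} (h : Sm p (m * x)) : Sm p x := by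
  have hm0 : (m : ℚ) ≠ 0 := by
    intro h0
    apply hm
    have : m = 0 := by exact_mod_cast h0
    rw [this]
    exact dvd_zero _
  have : x = (m * x) * (m : ℚ)⁻¹ := by field_simp
  rw [this]
  exact Sm.mul hp h (Ig.inv hp hm)

/-- first order expansion of a product. -/
theorem prod_expand {ι : Type*} (s : Finset ι) (x : ι → ℚ) (h : ∀ i ∈ s, Ig p (x i)) :
    ∃ y : ℚ, Ig p y ∧ ∏ i ∈ s, (1 + p * x i) = 1 + p * ∑ i ∈ s, x i + p ^ 2 * y := by
  classical
  induction s using Finset.induction_on with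
  | empty => exact ⟨0, by have := Ig.int hp 0; simpa using this, by simp⟩
  | insert a s ha ih =>
    obtain ⟨y, hy, hy'⟩ := ih (fun i hi => h i (Finset.mem_insert_of_mem hi))
    have hxa := h a (Finset.mem_insert_self _ _)
    have hxs : Ig p (∑ i ∈ s, x i) :=
      Ig.sum hp s x (fun i hi => h i (Finset.mem_insert_of_mem hi))
    refine ⟨y + x a * ∑ i ∈ s, x i + p * (x a * y), ?_, ?_⟩
    · exact Ig.add hp (Ig.add hp hy (Ig.mul hp hxa hxs))
        (Ig.mul hp (Ig.nat hp p) (Ig.mul hp hxa hy))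
    · rw [Finset.prod_insert ha, Finset.sum_insert ha, hy']
      ring

omit hp in
theorem card_pos_eq (c p j : ℕ) (hp0 : 0 < p) (hj : j < p) (hdvd : ∀ i, 1 ≤ i → i < c → i * p ≠ c * j) :
    ∑ i ∈ Finset.Ico 1 c, (if i * p / c < j then 1 else 0) = c * j / p := by
  rcases Nat.eq_zero_or_pos c with rfl | hc
  · simp
  have h1 : ∑ i ∈ Finset.Ico 1 c, (if i * p / c < j then 1 else 0) =
      ((Finset.Ico 1 c).filter (fun i => i * p / c < j)).card := by
    rw [Finset.card_filter]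
  have h2 : (Finset.Ico 1 c).filter (fun i => i * p / c < j) = Finset.Ico 1 (c * j / p + 1) := by
    ext i
    rw [Finset.mem_filter, Finset.mem_Ico, Finset.mem_Ico, Nat.div_lt_iff_lt_mul hc]
    constructor
    · rintro ⟨⟨a1, a2⟩, a3⟩
      refine ⟨a1, ?_⟩
      rw [Nat.lt_succ_iff, Nat.le_div_iff_mul_le hp0]
      rw [mul_comm j c] at a3
      exact a3.le
    · rintro ⟨a1, a2⟩
      rw [Nat.lt_succ_iff, Nat.le_div_iff_mul_le hp0] at a2
      have h3 : i < c := by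
        by_contra h4
        push Not at h4
        have h5 : c * p ≤ i * p := Nat.mul_le_mul_right p h4
        have h6 : c * j < c * p := Nat.mul_lt_mul_of_pos_left hj hc
        omega
      refine ⟨⟨a1, h3⟩, ?_⟩
      have h4 := hdvd i a1 h3
      rw [mul_comm j c]
      omega
  rw [h1, h2, Nat.card_Ico, Nat.add_sub_cancel]

omit hp in
theorem pair_eq {i : ℕ} (hi : i + 1 < p) : (((i + 1 : ℕ)) : ℚ)⁻¹ + ((p - 1 - i : ℕ) : ℚ)⁻¹ =
    (p : ℚ) * (((i + 1 : ℕ) : ℚ)⁻¹ * ((p - 1 - i : ℕ) : ℚ)⁻¹) := by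
  have h1 : (((i + 1 : ℕ)) : ℚ) ≠ 0 := by positivity
  have h2 : (((p - 1 - i : ℕ)) : ℚ) ≠ 0 := by
    have : p - 1 - i ≠ 0 := by omega
    exact_mod_cast this
  have h3 : (p : ℚ) = ((i + 1 : ℕ) : ℚ) + ((p - 1 - i : ℕ) : ℚ) := by
    rw [← Nat.cast_add]
    congr 1
    omega
  rw [h3]
  field_simp
  ring

theorem pair_sm {i : ℕ} (hi : i + 1 < p) :
    Sm p ((((i + 1 : ℕ)) : ℚ)⁻¹ + ((p - 1 - i : ℕ) : ℚ)⁻¹) := by
  rw [pair_eq hi]
  apply Sm.p_mul hp
  apply Ig.mul hp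
  · apply Ig.inv hp
    intro h
    have := Nat.le_of_dvd (by omega) h
    omega
  · apply Ig.inv hp
    intro h
    have := Nat.le_of_dvd (by omega) h
    omega

/-- `H_{p-1} ≡ 0`. -/
theorem harm_pred (h2 : 2 < p) : Sm p (harmonic (p - 1)) := by
  have := Fact.mk hp
  apply Sm.of_mul hp (m := 2) (fun h => by have := Nat.le_of_dvd (by norm_num) h; omega)
  have e3 : harmonic (p - 1) = ∑ i ∈ Finset.range (p - 1), ((p - 1 - i : ℕ) : ℚ)⁻¹ := by
    unfold harmonic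
    rw [← Finset.sum_range_reflect]
    apply Finset.sum_congr rfl
    intro i hi
    rw [Finset.mem_range] at hi
    congr 2
    omega
  have e1 : ((2 : ℕ) : ℚ) * harmonic (p - 1) =
      ∑ i ∈ Finset.range (p - 1), ((((i + 1 : ℕ)) : ℚ)⁻¹ + ((p - 1 - i : ℕ) : ℚ)⁻¹) := by
    rw [Finset.sum_add_distrib, ← e3]
    have : ∑ i ∈ Finset.range (p - 1), (((i + 1 : ℕ)) : ℚ)⁻¹ = harmonic (p - 1) := rfl
    rw [this]
    push_cast
    ring
  rw [e1]
  apply Sm.sum hp
  intro i hi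
  rw [Finset.mem_range] at hi
  exact pair_sm hp (by omega)

/-- `H_{p-1-k} ≡ H_k`. -/
theorem harm_refl (h2 : 2 < p) {k : ℕ} (hk : k < p) :
    Sm p (harmonic k - harmonic (p - 1 - k)) := by
  have e : ∀ k : ℕ, k < p → harmonic (p - 1) =
      harmonic (p - 1 - k) + ∑ i ∈ Finset.range k, ((p - 1 - i : ℕ) : ℚ)⁻¹ := by
    intro k
    induction k with
    | zero => simp
    | succ k ih =>
      intro hk
      rw [ih (by omega), Finset.sum_range_succ]
      have h3 : p - 1 - k = (p - 1 - (k + 1)) + 1 := by omega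
      have h4 : harmonic (p - 1 - k) = harmonic (p - 1 - (k + 1)) + ((p - 1 - k : ℕ) : ℚ)⁻¹ := by
        rw [h3, harmonic_succ]
      rw [h4]
      ring
  have e1 := e k hk
  have e2 : harmonic k - harmonic (p - 1 - k) =
      ∑ i ∈ Finset.range k, ((((i + 1 : ℕ)) : ℚ)⁻¹ + ((p - 1 - i : ℕ) : ℚ)⁻¹) -
        harmonic (p - 1) := by
    rw [Finset.sum_add_distrib]
    have : ∑ i ∈ Finset.range k, (((i + 1 : ℕ)) : ℚ)⁻¹ = harmonic k := rfl
    rw [this, e1]
    ring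
  rw [e2]
  apply Sm.sub hp _ (harm_pred hp h2)
  apply Sm.sum hp
  intro i hi
  rw [Finset.mem_range] at hi
  exact pair_sm hp (by omega)

theorem perm_prod {c : ℕ} (hc : ¬ p ∣ c) :
    ∏ j ∈ Finset.Ico 1 p, ((c * j % p : ℕ) : ℚ) = ∏ j ∈ Finset.Ico 1 p, (j : ℚ) := by
  have hmap : ∀ j ∈ Finset.Ico 1 p, c * j % p ∈ Finset.Ico 1 p := by
    intro j hj
    rw [Finset.mem_Ico] at hj ⊢
    refine ⟨?_, Nat.mod_lt _ hp.pos⟩
    rw [Nat.one_le_iff_ne_zero]
    intro h
    have h1 : p ∣ c * j := Nat.dvd_of_mod_eq_zero h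
    rcases (Nat.Prime.dvd_mul hp).1 h1 with h2 | h2
    · exact hc h2
    · have := Nat.le_of_dvd (by omega) h2
      omega
  have hinj : Set.InjOn (fun j => c * j % p) (Finset.Ico 1 p : Set ℕ) := by
    intro i hi j hj hij
    rw [Finset.coe_Ico, Set.mem_Ico] at hi hj
    have h1 : c * i ≡ c * j [MOD p] := hij
    have h2 : i ≡ j [MOD p] := Nat.ModEq.cancel_left_of_coprime
      ((Nat.Prime.coprime_iff_not_dvd hp).2 hc) h1
    exact Nat.ModEq.eq_of_lt_of_lt h2 hi.2 hj.2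
  have himg : (Finset.Ico 1 p).image (fun j => c * j % p) = Finset.Ico 1 p := by
    apply Finset.eq_of_subset_of_card_le
    · intro x hx
      obtain ⟨j, hj, rfl⟩ := Finset.mem_image.1 hx
      exact hmap j hj
    · rw [Finset.card_image_of_injOn hinj]
  conv_rhs => rw [← himg]
  rw [Finset.prod_image hinj]

/-- **Lerch's formula.** -/
theorem lerch (h2 : 2 < p) {c : ℕ} (hc : ¬ p ∣ c) :
    Sm p ((c : ℚ) * (((c : ℚ) ^ (p - 1) - 1) / p) +
      ∑ i ∈ Finset.Ico 1 c, harmonic (i * p / c)) := by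
  have := Fact.mk hp
  have hp0 : (p : ℚ) ≠ 0 := by exact_mod_cast hp.ne_zero
  have hc0 : 0 < c := Nat.pos_of_ne_zero (fun h => hc (h ▸ dvd_zero _))
  have hr : ∀ j ∈ Finset.Ico 1 p, ¬ p ∣ c * j % p := by
    intro j hj h
    rw [Finset.mem_Ico] at hj
    rw [Nat.dvd_mod_iff dvd_rfl] at h
    rcases (Nat.Prime.dvd_mul hp).1 h with h2 | h2
    · exact hc h2
    · have := Nat.le_of_dvd (by omega) h2
      omega
  have hr0 : ∀ j ∈ Finset.Ico 1 p, ((c * j % p : ℕ) : ℚ) ≠ 0 := by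
    intro j hj h
    have : c * j % p = 0 := by exact_mod_cast h
    apply hr j hj
    rw [this]
    exact dvd_zero _
  set x : ℕ → ℚ := fun j => ((c * j / p : ℕ) : ℚ) * ((c * j % p : ℕ) : ℚ)⁻¹ with hx
  have hxi : ∀ j ∈ Finset.Ico 1 p, Ig p (x j) := fun j hj =>
    Ig.mul hp (Ig.nat hp _) (Ig.inv hp (hr j hj))
  obtain ⟨y, hy, hy'⟩ := prod_expand hp (Finset.Ico 1 p) x hxi
  have hprod : (c : ℚ) ^ (p - 1) = ∏ j ∈ Finset.Ico 1 p, (1 + p * x j) := by
    have h1 : ∏ j ∈ Finset.Ico 1 p, (((c * j : ℕ)) : ℚ) =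
        (c : ℚ) ^ (p - 1) * ∏ j ∈ Finset.Ico 1 p, (j : ℚ) := by
      have : ∀ j ∈ Finset.Ico 1 p, (((c * j : ℕ)) : ℚ) = (c : ℚ) * j := by
        intro j _
        push_cast
        rfl
      rw [Finset.prod_congr rfl this, Finset.prod_mul_distrib, Finset.prod_const, Nat.card_Ico]
    have h3 : ∏ j ∈ Finset.Ico 1 p, (((c * j : ℕ)) : ℚ) =
        (∏ j ∈ Finset.Ico 1 p, (1 + p * x j)) * ∏ j ∈ Finset.Ico 1 p, ((c * j % p : ℕ) : ℚ) := by
      rw [← Finset.prod_mul_distrib]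
      apply Finset.prod_congr rfl
      intro j hj
      have h4 : ((c * j : ℕ) : ℚ) = p * ((c * j / p : ℕ) : ℚ) + ((c * j % p : ℕ) : ℚ) := by
        rw [← Nat.cast_mul, ← Nat.cast_add]
        congr 1
        exact (Nat.div_add_mod _ _).symm
      rw [h4, hx]
      have := hr0 j hj
      simp only
      field_simp
      ring
    rw [perm_prod hp hc] at h3
    have h5 : ∏ j ∈ Finset.Ico 1 p, (j : ℚ) ≠ 0 := by
      rw [Finset.prod_ne_zero_iff]
      intro j hj
      rw [Finset.mem_Ico] at hj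
      have : j ≠ 0 := by omega
      exact_mod_cast this
    exact mul_right_cancel₀ h5 (h1.symm.trans h3)
  have hq : ((c : ℚ) ^ (p - 1) - 1) / p = ∑ j ∈ Finset.Ico 1 p, x j + p * y := by
    rw [hprod, hy']
    field_simp
    ring
  -- the sum of the `e_j / j`
  have hsum : ∑ j ∈ Finset.Ico 1 p, ((c * j / p : ℕ) : ℚ) * (j : ℚ)⁻¹ =
      ∑ i ∈ Finset.Ico 1 c, (harmonic (p - 1) - harmonic (i * p / c)) := by
    have h1 : ∀ j ∈ Finset.Ico 1 p, ((c * j / p : ℕ) : ℚ) * (j : ℚ)⁻¹ =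
        ∑ i ∈ Finset.Ico 1 c, (if i * p / c < j then (j : ℚ)⁻¹ else 0) := by
      intro j hj
      rw [Finset.mem_Ico] at hj
      rw [← card_pos_eq c p j hp.pos hj.2, Nat.cast_sum, Finset.sum_mul]
      · apply Finset.sum_congr rfl
        intro i _
        split_ifs <;> simp
      · intro i hi1 hi2 h3
        have h4 : p ∣ c * j := ⟨i, by rw [← h3]; ring⟩
        rcases (Nat.Prime.dvd_mul hp).1 h4 with h5 | h5
        · exact hc h5
        · have := Nat.le_of_dvd (by omega) h5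
          omega
    rw [Finset.sum_congr rfl h1, Finset.sum_comm]
    apply Finset.sum_congr rfl
    intro i hi
    rw [Finset.mem_Ico] at hi
    have h3 : i * p / c ≤ p - 1 := by
      have h4 : i * p / c < p := by
        rw [Nat.div_lt_iff_lt_mul hc0]
        calc i * p < c * p := Nat.mul_lt_mul_of_pos_right hi.2 hp.pos
          _ = p * c := mul_comm _ _
      omega
    have h5 : ∀ a b : ℕ, a ≤ b → harmonic b - harmonic a =
        ∑ j ∈ Finset.Ico (a + 1) (b + 1), (j : ℚ)⁻¹ := by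
      intro a b hab
      induction b, hab using Nat.le_induction with
      | base => simp
      | succ b hab ih =>
        rw [Finset.sum_Ico_succ_top (by omega), ← ih, harmonic_succ]
        ring
    rw [h5 _ _ h3, ← Finset.sum_filter]
    apply Finset.sum_congr _ (fun _ _ => rfl)
    ext j
    rw [Finset.mem_filter, Finset.mem_Ico, Finset.mem_Ico]
    have h6 := hp.two_le
    generalize i * p / c = a at h3 ⊢
    omega
  have hfin : (c : ℚ) * (((c : ℚ) ^ (p - 1) - 1) / p) +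
      ∑ i ∈ Finset.Ico 1 c, harmonic (i * p / c) =
      ∑ j ∈ Finset.Ico 1 p, p * (((c * j / p : ℕ) : ℚ) * ((c * j / p : ℕ) : ℚ) *
        (((c * j % p : ℕ) : ℚ)⁻¹ * (j : ℚ)⁻¹)) + p * (c * y) +
      ∑ i ∈ Finset.Ico 1 c, harmonic (p - 1) := by
    have h1 : ∑ j ∈ Finset.Ico 1 p, p * (((c * j / p : ℕ) : ℚ) * ((c * j / p : ℕ) : ℚ) *
        (((c * j % p : ℕ) : ℚ)⁻¹ * (j : ℚ)⁻¹)) =
        c * ∑ j ∈ Finset.Ico 1 p, x j - ∑ j ∈ Finset.Ico 1 p, ((c * j / p : ℕ) : ℚ) * (j : ℚ)⁻¹ := by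
      rw [Finset.mul_sum, ← Finset.sum_sub_distrib]
      apply Finset.sum_congr rfl
      intro j hj
      have h3 := hr0 j hj
      have h4 : ((c : ℚ) * j) = p * ((c * j / p : ℕ) : ℚ) + ((c * j % p : ℕ) : ℚ) := by
        rw [← Nat.cast_mul, ← Nat.cast_mul, ← Nat.cast_add]
        congr 1
        exact (Nat.div_add_mod _ _).symm
      have h5 : (j : ℚ) ≠ 0 := by
        rw [Finset.mem_Ico] at hj
        have : j ≠ 0 := by omega
        exact_mod_cast this
      simp only [hx]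
      set e := ((c * j / p : ℕ) : ℚ)
      set r := ((c * j % p : ℕ) : ℚ)
      field_simp
      linear_combination (-e) * h4
    rw [h1, hsum, hq, Finset.sum_sub_distrib]
    ring
  rw [hfin]
  apply Sm.add hp
  · apply Sm.add hp
    · apply Sm.sum hp
      intro j hj
      apply Sm.p_mul hp
      apply Ig.mul hp (Ig.mul hp (Ig.nat hp _) (Ig.nat hp _))
      apply Ig.mul hp (Ig.inv hp (hr j hj))
      apply Ig.inv hp
      intro h
      rw [Finset.mem_Ico] at hj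
      have := Nat.le_of_dvd (by omega) h
      omega
    · exact Sm.p_mul hp (Ig.mul hp (Ig.nat hp _) hy)
  · exact Sm.sum hp _ _ (fun i _ => harm_pred hp h2)

end

end Run7.h510
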