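import Mathlib
import Pool.Agent.Run7.h510.B3.Lerch
import Pool.Agent.Run7.h510.B3.Dens

/-!
The Fermat quotients `(3^(p-1)-1)/p` avoid every fixed rational number modulo `p` for a positive
proportion of the primes.
-/

namespace Run7.h510.B3

noncomputable section

/-- `2 H_k + 3 q_p(3) ≡ 0` if `k < p`, `p ∣ 3k+1`. -/
theorem harm_three {p : ℕ} (hp : p.Prime) (h3 : 3 < p) {k : ℕ} (hk : k < p) (hd : p ∣ 3 * k + 1) :
    Sm p (2 * harmonic k + 3 * (((3 : ℚ) ^ (p - 1) - 1) / p)) := by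
  have h1 := lerch hp (by omega) (c := 3) (fun h => by
    have := Nat.le_of_dvd (by norm_num) h
    omega)
  have h2 : ∑ i ∈ Finset.Ico 1 3, harmonic (i * p / 3) =
      harmonic (p / 3) + harmonic (2 * p / 3) := by
    rw [Finset.sum_Ico_succ_top (by norm_num), Finset.sum_Ico_succ_top (by norm_num)]
    simp
  rw [h2] at h1
  have h4 := harm_refl hp (by omega) hk
  obtain ⟨m, hm⟩ := hd
  have hm3 : m < 3 := by
    by_contra h
    push Not at h
    have := Nat.mul_le_mul_left p h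
    omega
  have h5 : harmonic (p / 3) + harmonic (2 * p / 3) = harmonic k + harmonic (p - 1 - k) := by
    interval_cases m
    · omega
    · have e1 : p / 3 = k := by omega
      have e2 : 2 * p / 3 = p - 1 - k := by omega
      rw [e1, e2]
    · have e1 : p / 3 = p - 1 - k := by omega
      have e2 : 2 * p / 3 = k := by omega
      rw [e1, e2, add_comm]
  rw [h5] at h1
  have h6 : 2 * harmonic k + 3 * (((3 : ℚ) ^ (p - 1) - 1) / p) =
      (((3 : ℕ) : ℚ) * ((((3 : ℕ) : ℚ) ^ (p - 1) - 1) / p) + (harmonic k + harmonic (p - 1 - k))) +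
        (harmonic k - harmonic (p - 1 - k)) := by
    push_cast
    ring
  rw [h6]
  exact Sm.add hp h1 h4

/-- the parameters for `q_p(3) ≡ a / b`. -/
@[instance_reducible]
def par (a : ℤ) (b : ℕ) (hb : 0 < b) : Par where
  D := 2 * b
  N := 3 * a
  hD := by omega

theorem good_of {a : ℤ} {b : ℕ} (hb : 0 < b) {p : ℕ} (hp : p.Prime) (h3 : 3 < p)
    (h : ((p : ℤ)) ^ 2 ∣ b * (3 ^ (p - 1) - 1) - a * p) : Good (P := par a b hb) p := by
  intro k hk hd
  have h1 := harm_three hp h3 hk hd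
  have hp0 : (p : ℚ) ≠ 0 := by exact_mod_cast hp.ne_zero
  obtain ⟨c, hc⟩ := h
  have hc' : (b : ℚ) * (3 ^ (p - 1) - 1) - a * p = (p : ℚ) ^ 2 * c := by exact_mod_cast hc
  have h2 : Run7.h510.B3.hk (P := par a b hb) k =
      b * (2 * harmonic k + 3 * (((3 : ℚ) ^ (p - 1) - 1) / p)) - 3 * (p * c) := by
    have h4 : (b : ℚ) * (((3 : ℚ) ^ (p - 1) - 1) / p) = p * c + a := by
      field_simp
      linear_combination hc'
    unfold Run7.h510.B3.hk par
    push_cast
    linear_combination (-3 : ℚ) * h4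
  show Sm p (Run7.h510.B3.hk (P := par a b hb) k)
  rw [h2]
  apply Sm.sub hp
  · rw [mul_comm]
    exact Sm.mul hp h1 (Ig.nat hp b)
  · rw [show (3 : ℚ) * (p * c) = p * (3 * c) by ring]
    apply Sm.p_mul hp
    have := Ig.int hp (3 * c)
    push_cast at this
    exact this

theorem density_pos : ∃ x₀ : ℕ, ∀ x : ℕ, x₀ ≤ x → ∀ (a : ℤ) (b : ℕ), 0 < b →
    |(a : ℝ)| ≤ Real.exp (x / 4000) → (b : ℝ) ≤ Real.exp (x / 4000) →
    (x : ℝ) / (110 * Real.log x) ≤
      ({p : ℕ | p ≤ x ∧ p.Prime ∧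
        ¬ ((p : ℤ)) ^ 2 ∣ b * (3 ^ (p - 1) - 1) - a * p}.ncard : ℝ) := by
  obtain ⟨x₀, h⟩ := density'
  -- `40000 log x ≤ x` for large `x`
  have hlx : ∀ᶠ x : ℕ in Filter.atTop, Real.log x ≤ (1 / 40000) * (x : ℝ) := by
    have l1 : Filter.Tendsto (fun x : ℝ => Real.log x / x) Filter.atTop (nhds 0) :=
      Real.isLittleO_log_id_atTop.tendsto_div_nhds_zero
    have l2 := l1.comp tendsto_natCast_atTop_atTop
    have l3 := l2.eventually (gt_mem_nhds (show (0 : ℝ) < 1 / 40000 by norm_num))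
    filter_upwards [l3, Filter.eventually_gt_atTop 0] with x hx hx0
    have hx0' : (0 : ℝ) < x := by exact_mod_cast hx0
    simp only [Function.comp_apply] at hx
    rw [div_lt_iff₀ hx0'] at hx
    exact hx.le
  obtain ⟨X, hX⟩ := Filter.eventually_atTop.mp hlx
  refine ⟨max (max x₀ X) 1000000, ?_⟩
  intro x hx a b hb ha' hb'
  have hx1 : x₀ ≤ x := (le_max_left _ _).trans ((le_max_left _ _).trans hx)
  have hx2 : X ≤ x := (le_max_right _ _).trans ((le_max_left _ _).trans hx)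
  have hx3 : 1000000 ≤ x := (le_max_right _ _).trans hx
  have hx0 : (1000000 : ℝ) ≤ x := by exact_mod_cast hx3
  have hht : (par a b hb).ht ≤ Real.exp (x / 3700) := by
    have e1 : (par a b hb).ht = 1 + 2 * b + 3 * |(a : ℝ)| := by
      have e2 : ((par a b hb).D : ℝ) = 2 * b := by
        show (((2 * b : ℕ)) : ℝ) = 2 * b
        push_cast
        ring
      have e3 : ((par a b hb).N : ℝ) = 3 * a := by
        show (((3 * a : ℤ)) : ℝ) = 3 * a
        push_cast
        ring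
      unfold Par.ht
      rw [e2, e3, abs_mul]
      norm_num
    have e4 : (1 : ℝ) ≤ Real.exp (x / 4000) := Real.one_le_exp (by positivity)
    have e5 : Real.exp (x / 3700) = Real.exp (x / 4000) * Real.exp (x / 3700 - x / 4000) := by
      rw [← Real.exp_add]
      congr 1
      ring
    have e6 : (6 : ℝ) ≤ Real.exp (x / 3700 - x / 4000) := by
      have := Real.add_one_le_exp ((x : ℝ) / 3700 - x / 4000)
      linarith
    rw [e1, e5]
    nlinarith
  have h1 := h x hx1 (par a b hb) hht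
  have h2 := hX x hx2
  have hfin : {p : ℕ | p ≤ x ∧ p.Prime ∧
        ¬ ((p : ℤ)) ^ 2 ∣ b * (3 ^ (p - 1) - 1) - a * p}.Finite :=
    (Set.finite_Iic x).subset (fun p hp => hp.1)
  have hsub : (((nw (P := par a b hb) x \ {2, 3} : Finset ℕ)) : Set ℕ) ⊆ {p : ℕ | p ≤ x ∧ p.Prime ∧
        ¬ ((p : ℤ)) ^ 2 ∣ b * (3 ^ (p - 1) - 1) - a * p} := by
    intro p hp
    rw [Finset.mem_coe, Finset.mem_sdiff, mem_nw (P := par a b hb), Finset.mem_insert,
      Finset.mem_singleton] at hp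
    obtain ⟨⟨hpx, hpp, hG⟩, h23⟩ := hp
    have h3 : 3 < p := by
      have := hpp.two_le
      omega
    refine ⟨hpx, hpp, ?_⟩
    intro hdiv
    exact hG ⟨h3, good_of hb hpp h3 hdiv⟩
  have h4 := Set.ncard_le_ncard hsub hfin
  rw [Set.ncard_coe_finset] at h4
  have h5 : (nw (P := par a b hb) x).card ≤ (nw (P := par a b hb) x \ {2, 3}).card + 2 := by
    have := Finset.le_card_sdiff ({2, 3} : Finset ℕ) (nw (P := par a b hb) x)
    have h6 : ({2, 3} : Finset ℕ).card = 2 := rfl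
    omega
  have h6 : ((nw (P := par a b hb) x).card : ℝ) ≤ ({p : ℕ | p ≤ x ∧ p.Prime ∧
        ¬ ((p : ℤ)) ^ 2 ∣ b * (3 ^ (p - 1) - 1) - a * p}.ncard : ℝ) + 2 := by
    have h7 := (Nat.cast_le (α := ℝ)).2 (h5.trans (Nat.add_le_add_right h4 2))
    rw [Nat.cast_add, Nat.cast_ofNat] at h7
    exact h7
  have hlog : 0 < Real.log x := Real.log_pos (by linarith)
  have h7 : (x : ℝ) / (110 * Real.log x) + 2 ≤ (x : ℝ) / (108 * Real.log x) := by
    have e1 : (x : ℝ) / (110 * Real.log x) + 2 = ((x : ℝ) / 110 + 2 * Real.log x) / Real.log x := by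
      field_simp
    have e2 : (x : ℝ) / (108 * Real.log x) = ((x : ℝ) / 108) / Real.log x := by
      field_simp
    rw [e1, e2]
    apply div_le_div_of_nonneg_right _ hlog.le
    linarith
  linarith

/-- **Theorem.** For all large `x`, every rational number `r = a/b` of height at most
`exp (x / 4000)` is avoided by many Fermat quotients in base `3`: at least `x/(110 log x)` of the
primes `p ≤ x` satisfy `(3^(p-1)-1)/p ≢ a/b` modulo `p`. -/
theorem density_all : ∃ x₀ : ℕ, ∀ x : ℕ, x₀ ≤ x → ∀ a b : ℤ, b ≠ 0 →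
    |(a : ℝ)| ≤ Real.exp (x / 4000) → |(b : ℝ)| ≤ Real.exp (x / 4000) →
    (x : ℝ) / (110 * Real.log x) ≤
      ({p : ℕ | p ≤ x ∧ p.Prime ∧
        ¬ ((p : ℤ)) ^ 2 ∣ b * (3 ^ (p - 1) - 1) - a * p}.ncard : ℝ) := by
  obtain ⟨x₀, h⟩ := density_pos
  refine ⟨x₀, ?_⟩
  intro x hx a b hb ha1 hb1
  rcases lt_or_gt_of_ne hb with hlt | hgt
  · obtain ⟨b', hb'⟩ : ∃ b' : ℕ, b = -(b' : ℤ) := ⟨b.natAbs, by omega⟩
    refine (h x hx (-a) b' (by omega) ?_ ?_).trans (le_of_eq ?_)
    · rw [Int.cast_neg, abs_neg]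
      exact ha1
    · rw [hb', Int.cast_neg, abs_neg, Int.cast_natCast] at hb1
      exact (le_abs_self _).trans hb1
    congr 2
    ext p
    simp only [Set.mem_ofPred_eq]
    have : b * (3 ^ (p - 1) - 1) - a * (p : ℤ) = -((b' : ℤ) * (3 ^ (p - 1) - 1) - -a * p) := by
      rw [hb']; ring
    rw [this, dvd_neg]
  · obtain ⟨b', hb'⟩ : ∃ b' : ℕ, b = (b' : ℤ) := ⟨b.natAbs, by omega⟩
    refine (h x hx a b' (by omega) ha1 ?_).trans (le_of_eq ?_)
    · rw [hb', Int.cast_natCast] at hb1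
      exact (le_abs_self _).trans hb1
    rw [hb']

end

end Run7.h510.B3
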